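import Pool.Agent.Helper89.Hia.Defs

/-! Chains of subsets of `ℕ`: sides, endpoints, deciding intervals. -/

open Set

namespace Pool.Agent.Hia

/-- `chi L e false b`: `b` contains the left side of `e`; `chi L e true b`: the right side. -/
def chi (L : Set (Set ℕ)) (e : Set ℕ) : Bool → Set ℕ → Prop
  | false, b => ∃ f ∈ L, f ⊂ e ∧ e \ f ⊆ b
  | true, b => ∃ f ∈ L, e ⊂ f ∧ f \ e ⊆ b

/-- interior elements of the chain -/
def Inr (L : Set (Set ℕ)) (e : Set ℕ) : Prop := e ∈ L ∧ e ≠ ∅ ∧ e ≠ univ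

/-- endpoints -/
def ep (L : Set (Set ℕ)) (b : Set ℕ) : Set (Set ℕ) :=
  {e | Inr L e ∧ ¬ (chi L e false b ↔ chi L e true b)}

/-- the chain with end elements -/
structure Ch (L : Set (Set ℕ)) : Prop where
  chain : IsChain (· ⊆ ·) L
  bot : ∅ ∈ L
  top : univ ∈ L

variable {L : Set (Set ℕ)}

theorem Ch.total (h : Ch L) {e f : Set ℕ} (he : e ∈ L) (hf : f ∈ L) : e ⊆ f ∨ f ⊆ e :=
  h.chain.total he hf

theorem Ch.ssub (h : Ch L) {e f : Set ℕ} (he : e ∈ L) (hf : f ∈ L) (hn : ¬ f ⊆ e) : e ⊂ f :=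
  ⟨(h.total he hf).resolve_right hn, hn⟩

theorem Ch.tri (h : Ch L) {e f : Set ℕ} (he : e ∈ L) (hf : f ∈ L) : e ⊂ f ∨ e = f ∨ f ⊂ e := by
  rcases h.total he hf with h1 | h1
  · rcases h1.eq_or_ssubset with h2 | h2
    · exact Or.inr (Or.inl h2)
    · exact Or.inl h2
  · rcases h1.eq_or_ssubset with h2 | h2
    · exact Or.inr (Or.inl h2.symm)
    · exact Or.inr (Or.inr h2)

theorem Ch.exists_max (h : Ch L) {e f g : Set ℕ} (he : e ∈ L) (hf : f ∈ L) (h1 : e ⊂ g)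
    (h2 : f ⊂ g) : ∃ m ∈ L, m ⊂ g ∧ e ⊆ m ∧ f ⊆ m := by
  rcases h.total he hf with h3 | h3
  · exact ⟨f, hf, h2, h3, subset_rfl⟩
  · exact ⟨e, he, h1, subset_rfl, h3⟩

theorem Ch.exists_min (h : Ch L) {e f g : Set ℕ} (he : e ∈ L) (hf : f ∈ L) (h1 : g ⊂ e)
    (h2 : g ⊂ f) : ∃ m ∈ L, g ⊂ m ∧ m ⊆ e ∧ m ⊆ f := by
  rcases h.total he hf with h3 | h3
  · exact ⟨e, he, h1, subset_rfl, h3⟩
  · exact ⟨f, hf, h2, h3, subset_rfl⟩

theorem chi_mono {e b b' : Set ℕ} {δ : Bool} (hb : b ⊆ b') (h : chi L e δ b) : chi L e δ b' := by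
  cases δ
  · obtain ⟨f, h1, h2, h3⟩ := h
    exact ⟨f, h1, h2, h3.trans hb⟩
  · obtain ⟨f, h1, h2, h3⟩ := h
    exact ⟨f, h1, h2, h3.trans hb⟩

theorem chi_not_both (hL : Ch L) {e b b' : Set ℕ} {δ : Bool} (h : chi L e δ b)
    (h' : chi L e δ b') : (b ∩ b').Nonempty := by
  cases δ
  · obtain ⟨f, h1, h2, h3⟩ := h
    obtain ⟨f', h1', h2', h3'⟩ := h'
    obtain ⟨m, -, hm2, hm3, hm4⟩ := hL.exists_max h1 h1' h2 h2'
    obtain ⟨n, hn, hn'⟩ := exists_of_ssubset hm2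
    exact ⟨n, h3 ⟨hn, fun h => hn' (hm3 h)⟩, h3' ⟨hn, fun h => hn' (hm4 h)⟩⟩
  · obtain ⟨f, h1, h2, h3⟩ := h
    obtain ⟨f', h1', h2', h3'⟩ := h'
    obtain ⟨m, -, hm2, hm3, hm4⟩ := hL.exists_min h1 h1' h2 h2'
    obtain ⟨n, hn, hn'⟩ := exists_of_ssubset hm2
    exact ⟨n, h3 ⟨hm3 hn, hn'⟩, h3' ⟨hm4 hn, hn'⟩⟩

theorem chi_inter (hL : Ch L) {e b b' : Set ℕ} {δ : Bool} (h : chi L e δ b)
    (h' : chi L e δ b') : chi L e δ (b ∩ b') := by
  cases δ
  · obtain ⟨f, h1, h2, h3⟩ := h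
    obtain ⟨f', h1', h2', h3'⟩ := h'
    obtain ⟨m, hm1, hm2, hm3, hm4⟩ := hL.exists_max h1 h1' h2 h2'
    exact ⟨m, hm1, hm2, fun n hn => ⟨h3 ⟨hn.1, fun h => hn.2 (hm3 h)⟩,
      h3' ⟨hn.1, fun h => hn.2 (hm4 h)⟩⟩⟩
  · obtain ⟨f, h1, h2, h3⟩ := h
    obtain ⟨f', h1', h2', h3'⟩ := h'
    obtain ⟨m, hm1, hm2, hm3, hm4⟩ := hL.exists_min h1 h1' h2 h2'
    exact ⟨m, hm1, hm2, fun n hn => ⟨h3 ⟨hm3 hn.1, hn.2⟩, h3' ⟨hm4 hn.1, hn.2⟩⟩⟩

theorem chi_inter_iff (hL : Ch L) {e b b' : Set ℕ} {δ : Bool} :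
    chi L e δ (b ∩ b') ↔ chi L e δ b ∧ chi L e δ b' :=
  ⟨fun h => ⟨chi_mono inter_subset_left h, chi_mono inter_subset_right h⟩,
    fun h => chi_inter hL h.1 h.2⟩

/-- dichotomy -/
theorem chi_or (hL : Ch L) {e b : Set ℕ} (he : Inr L e) (hb : b ∈ BooleanSubalgebra.closure L)
    (δ : Bool) : chi L e δ b ∨ chi L e δ bᶜ := by
  induction hb using BooleanSubalgebra.closure_bot_sup_induction with
  | mem x hx =>
    rcases hL.tri he.1 hx with h | h | h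
    · left
      cases δ
      · exact ⟨∅, hL.bot, bot_lt_iff_ne_bot.2 he.2.1, fun n hn => h.1 hn.1⟩
      · exact ⟨x, hx, h, sdiff_subset⟩
    · subst h
      cases δ
      · left
        exact ⟨∅, hL.bot, bot_lt_iff_ne_bot.2 he.2.1, sdiff_subset⟩
      · right
        exact ⟨univ, hL.top, lt_top_iff_ne_top.2 he.2.2, fun n hn => hn.2⟩
    · right
      cases δ
      · exact ⟨x, hx, h, fun n hn => hn.2⟩
      · exact ⟨univ, hL.top, lt_top_iff_ne_top.2 he.2.2, fun n hn hnx => hn.2 (h.1 hnx)⟩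
  | bot =>
    right
    cases δ
    · exact ⟨∅, hL.bot, bot_lt_iff_ne_bot.2 he.2.1, fun n _ => by simp⟩
    · exact ⟨univ, hL.top, lt_top_iff_ne_top.2 he.2.2, fun n _ => by simp⟩
  | sup x hx y hy h1 h2 =>
    rcases h1 with h1 | h1
    · left; exact chi_mono subset_union_left h1
    · rcases h2 with h2 | h2
      · left; exact chi_mono subset_union_right h2
      · right
        have := chi_inter hL h1 h2
        rw [← compl_union] at this
        exact this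
  | compl x hx h =>
    rw [compl_compl]
    exact h.symm

theorem chi_compl (hL : Ch L) {e b : Set ℕ} (he : Inr L e)
    (hb : b ∈ BooleanSubalgebra.closure L) (δ : Bool) : chi L e δ bᶜ ↔ ¬ chi L e δ b := by
  constructor
  · intro h h'
    obtain ⟨n, hn1, hn2⟩ := chi_not_both hL h h'
    exact hn1 hn2
  · intro h
    exact (chi_or hL he hb δ).resolve_left h

theorem ep_compl (hL : Ch L) {b : Set ℕ} (hb : b ∈ BooleanSubalgebra.closure L) :
    ep L bᶜ = ep L b := by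
  ext e
  simp only [ep, mem_ofPred_eq]
  constructor
  · rintro ⟨h1, h2⟩
    refine ⟨h1, ?_⟩
    rw [chi_compl hL h1 hb, chi_compl hL h1 hb] at h2
    tauto
  · rintro ⟨h1, h2⟩
    refine ⟨h1, ?_⟩
    rw [chi_compl hL h1 hb, chi_compl hL h1 hb]
    tauto

theorem ep_inter (hL : Ch L) (b b' : Set ℕ) : ep L (b ∩ b') ⊆ ep L b ∪ ep L b' := by
  rintro e ⟨h1, h2⟩
  rw [chi_inter_iff hL, chi_inter_iff hL] at h2
  by_contra h
  simp only [mem_union, ep, mem_ofPred_eq, not_or, not_and, not_not] at h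
  have h3 := h.1 h1
  have h4 := h.2 h1
  rw [h3, h4] at h2
  exact h2 Iff.rfl

theorem ep_sdiff (hL : Ch L) {b b' : Set ℕ} (hb' : b' ∈ BooleanSubalgebra.closure L) :
    ep L (b \ b') ⊆ ep L b ∪ ep L b' := by
  rw [sdiff_eq]
  have := ep_inter hL b b'ᶜ
  rwa [ep_compl hL hb'] at this

theorem ep_union (hL : Ch L) {b b' : Set ℕ} (hb : b ∈ BooleanSubalgebra.closure L)
    (hb' : b' ∈ BooleanSubalgebra.closure L) : ep L (b ∪ b') ⊆ ep L b ∪ ep L b' := by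
  have h1 : b ∪ b' = (bᶜ ∩ b'ᶜ)ᶜ := by rw [compl_inter, compl_compl, compl_compl]
  have h2 : (bᶜ ∩ b'ᶜ) ∈ BooleanSubalgebra.closure L :=
    BooleanSubalgebra.inf_mem (BooleanSubalgebra.compl_mem hb) (BooleanSubalgebra.compl_mem hb')
  rw [h1, ep_compl hL h2]
  refine (ep_inter hL _ _).trans ?_
  rw [ep_compl hL hb, ep_compl hL hb']

theorem ep_chain (hL : Ch L) {x : Set ℕ} (hx : x ∈ L) : ep L x ⊆ {x} := by
  rintro e ⟨h1, h2⟩
  by_contra hne
  apply h2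
  rcases hL.tri h1.1 hx with h | h | h
  · refine ⟨fun _ => ⟨x, hx, h, sdiff_subset⟩, fun _ => ⟨∅, hL.bot, bot_lt_iff_ne_bot.2 h1.2.1,
      fun n hn => h.1 hn.1⟩⟩
  · exact absurd h hne
  · have hA : ∀ δ, chi L e δ xᶜ := by
      intro δ
      cases δ
      · exact ⟨x, hx, h, fun n hn => hn.2⟩
      · exact ⟨univ, hL.top, lt_top_iff_ne_top.2 h1.2.2, fun n hn hnx => hn.2 (h.1 hnx)⟩
    have hx' : x ∈ BooleanSubalgebra.closure L := BooleanSubalgebra.mem_closure_of_mem hx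
    have h3 := (chi_compl hL h1 hx' false).1 (hA false)
    have h4 := (chi_compl hL h1 hx' true).1 (hA true)
    tauto

theorem ep_finite (hL : Ch L) {b : Set ℕ} (hb : b ∈ BooleanSubalgebra.closure L) :
    (ep L b).Finite := by
  induction hb using BooleanSubalgebra.closure_bot_sup_induction with
  | mem x hx => exact (finite_singleton x).subset (ep_chain hL hx)
  | bot => exact (finite_singleton _).subset (ep_chain hL hL.bot)
  | sup x hx y hy h1 h2 => exact (h1.union h2).subset (ep_union hL hx hy)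
  | compl x hx h => rwa [ep_compl hL hx]

/-- `F` decides `b` -/
def Dec (L F : Set (Set ℕ)) (b : Set ℕ) : Prop :=
  ∀ e₁ ∈ L, ∀ e₂ ∈ L, e₁ ⊆ e₂ → (∀ f ∈ F, ¬ (e₁ ⊂ f ∧ f ⊂ e₂)) →
    e₂ \ e₁ ⊆ b ∨ Disjoint (e₂ \ e₁) b

theorem Dec.mono {F F' : Set (Set ℕ)} {b : Set ℕ} (h : Dec L F b) (hF : F ⊆ F') : Dec L F' b :=
  fun e₁ h1 e₂ h2 h12 h3 => h e₁ h1 e₂ h2 h12 fun f hf => h3 f (hF hf)

theorem exists_dec (hL : Ch L) {b : Set ℕ} (hb : b ∈ BooleanSubalgebra.closure L) :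
    ∃ F : Set (Set ℕ), F.Finite ∧ F ⊆ L ∧ Dec L F b := by
  induction hb using BooleanSubalgebra.closure_bot_sup_induction with
  | mem x hx =>
    refine ⟨{x}, finite_singleton x, singleton_subset_iff.2 hx, ?_⟩
    intro e₁ h1 e₂ h2 h12 h3
    have h3 := h3 x rfl
    rcases hL.tri h1 hx with h | h | h
    · left
      have : e₂ ⊆ x := by
        by_contra hn
        exact h3 ⟨h, hL.ssub hx h2 hn⟩
      exact sdiff_subset.trans this
    · right
      subst h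
      exact disjoint_sdiff_left
    · right
      exact disjoint_sdiff_left.mono_right h.1
  | bot => exact ⟨∅, finite_empty, empty_subset _, fun _ _ _ _ _ _ => Or.inr disjoint_bot_right⟩
  | sup x hx y hy h1 h2 =>
    obtain ⟨F, hF1, hF2, hF3⟩ := h1
    obtain ⟨G, hG1, hG2, hG3⟩ := h2
    refine ⟨F ∪ G, hF1.union hG1, union_subset hF2 hG2, ?_⟩
    intro e₁ h1 e₂ h2 h12 h3
    rcases hF3 e₁ h1 e₂ h2 h12 (fun f hf => h3 f (Or.inl hf)) with h4 | h4
    · left; exact h4.trans subset_union_left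
    · rcases hG3 e₁ h1 e₂ h2 h12 (fun f hf => h3 f (Or.inr hf)) with h5 | h5
      · left; exact h5.trans subset_union_right
      · right; exact Disjoint.union_right h4 h5
  | compl x hx h =>
    obtain ⟨F, hF1, hF2, hF3⟩ := h
    refine ⟨F, hF1, hF2, ?_⟩
    intro e₁ h1 e₂ h2 h12 h3
    rcases hF3 e₁ h1 e₂ h2 h12 h3 with h4 | h4
    · right; exact disjoint_compl_right.mono_left h4
    · left; exact subset_compl_iff_disjoint_right.2 h4

theorem dec_remove (hL : Ch L) {b : Set ℕ} {F : Set (Set ℕ)} {f : Set ℕ} (hfL : f ∈ L)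
    (hfb : f ∉ ep L b) (h : Dec L (insert f F) b) : Dec L F b := by
  intro e₁ h1 e₂ h2 h12 h3
  by_cases hf : e₁ ⊂ f ∧ f ⊂ e₂
  swap
  · refine h e₁ h1 e₂ h2 h12 ?_
    rintro g (rfl | hg)
    · exact hf
    · exact h3 g hg
  obtain ⟨hf1, hf2⟩ := hf
  have hInr : Inr L f := ⟨hfL, fun h => by subst h; exact hf1.2 (empty_subset _),
    fun h => by subst h; exact hf2.2 (subset_univ _)⟩
  have hA := h e₁ h1 f hfL hf1.1 (by
    rintro g (rfl | hg) ⟨hg1, hg2⟩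
    · exact hg2.2 subset_rfl
    · exact h3 g hg ⟨hg1, hg2.trans hf2⟩)
  have hB := h f hfL e₂ h2 hf2.1 (by
    rintro g (rfl | hg) ⟨hg1, hg2⟩
    · exact hg1.2 subset_rfl
    · exact h3 g hg ⟨hf1.trans hg1, hg2⟩)
  have hiff : chi L f false b ↔ chi L f true b := by
    by_contra hn
    exact hfb ⟨hInr, hn⟩
  have hunion : e₂ \ e₁ = (e₂ \ f) ∪ (f \ e₁) := by
    ext n
    simp only [mem_union, mem_sdiff]
    have := @hf1.1 n
    have := @hf2.1 n
    tauto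
  rw [hunion]
  rcases hA with hA | hA <;> rcases hB with hB | hB
  · left; exact union_subset hB hA
  · exfalso
    have h4 : chi L f false b := ⟨e₁, h1, hf1, hA⟩
    have h5 : chi L f true bᶜ := ⟨e₂, h2, hf2, subset_compl_iff_disjoint_right.2 hB⟩
    obtain ⟨n, hn1, hn2⟩ := chi_not_both hL (hiff.1 h4) h5
    exact hn2 hn1
  · exfalso
    have h4 : chi L f true b := ⟨e₂, h2, hf2, hB⟩
    have h5 : chi L f false bᶜ := ⟨e₁, h1, hf1, subset_compl_iff_disjoint_right.2 hA⟩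
    obtain ⟨n, hn1, hn2⟩ := chi_not_both hL (hiff.2 h4) h5
    exact hn2 hn1
  · right; exact Disjoint.union_left hB hA

/-- the endpoints of `b` decide `b` -/
theorem dec_ep (hL : Ch L) {b : Set ℕ} (hb : b ∈ BooleanSubalgebra.closure L) :
    Dec L (ep L b) b := by
  classical
  obtain ⟨F, hF1, hF2, hF3⟩ := exists_dec hL hb
  have key : ∀ G : Finset (Set ℕ), (G : Set (Set ℕ)) ⊆ L → Dec L (G ∪ ep L b) b →
      Dec L (ep L b) b := by
    intro G
    induction G using Finset.induction_on with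
    | empty => intro _ h; simpa using h
    | insert f G hfG ih =>
      intro hG h
      rw [Finset.coe_insert] at hG h
      refine ih ((subset_insert _ _).trans hG) ?_
      by_cases hf : f ∈ ep L b
      · refine h.mono ?_
        rintro x ((rfl | hx) | hx)
        · exact Or.inr hf
        · exact Or.inl hx
        · exact Or.inr hx
      · rw [insert_union] at h
        exact dec_remove hL (hG (mem_insert _ _)) hf h
  refine key hF1.toFinset (by simpa using hF2) ?_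
  exact hF3.mono (by simp)

/-! ### Countability -/

theorem exists_cofinal {T : Set (Set ℕ)} (hT : IsChain (· ⊆ ·) T) :
    ∃ T' ⊆ T, T'.Countable ∧ ∀ t ∈ T, ∃ t' ∈ T', t ⊆ t' := by
  classical
  by_cases hm : ∃ m ∈ T, ∀ t ∈ T, t ⊆ m
  · obtain ⟨m, hm1, hm2⟩ := hm
    exact ⟨{m}, singleton_subset_iff.2 hm1, countable_singleton m, fun t ht => ⟨m, rfl, hm2 t ht⟩⟩
  push Not at hm
  rcases T.eq_empty_or_nonempty with rfl | hne
  · exact ⟨∅, subset_rfl, countable_empty, fun t ht => absurd ht (notMem_empty t)⟩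
  obtain ⟨t0, ht0⟩ := hne
  set f : ℕ → Set ℕ := fun n => if h : ∃ t ∈ T, n ∈ t then h.choose else t0 with hf
  have hfT : ∀ n, f n ∈ T := by
    intro n
    simp only [hf]
    split_ifs with h
    · exact h.choose_spec.1
    · exact ht0
  refine ⟨range f, range_subset_iff.2 hfT, countable_range f, ?_⟩
  intro t ht
  obtain ⟨t', ht', hn⟩ := hm t ht
  obtain ⟨n, hn1, hn2⟩ := not_subset.1 hn
  have h1 : ∃ t ∈ T, n ∈ t := ⟨t', ht', hn1⟩
  have h2 : n ∈ f n := by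
    simp only [hf]
    rw [dif_pos h1]
    exact h1.choose_spec.2
  refine ⟨f n, mem_range_self n, ?_⟩
  rcases hT.total ht (hfT n) with h | h
  · exact h
  · exact absurd (h h2) hn2

theorem exists_coinitial {T : Set (Set ℕ)} (hT : IsChain (· ⊆ ·) T) :
    ∃ T' ⊆ T, T'.Countable ∧ ∀ t ∈ T, ∃ t' ∈ T', t' ⊆ t := by
  have hT2 : IsChain (· ⊆ ·) (compl '' T) := by
    rintro _ ⟨x, hx, rfl⟩ _ ⟨y, hy, rfl⟩ _
    rcases hT.total hx hy with h | h
    · right; exact compl_subset_compl.2 h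
    · left; exact compl_subset_compl.2 h
  obtain ⟨T', h1, h2, h3⟩ := exists_cofinal hT2
  refine ⟨compl '' T', ?_, h2.image _, ?_⟩
  · rintro _ ⟨x, hx, rfl⟩
    obtain ⟨y, hy, rfl⟩ := h1 hx
    rwa [compl_compl]
  · intro t ht
    obtain ⟨t', ht', h4⟩ := h3 tᶜ (mem_image_of_mem _ ht)
    exact ⟨t'ᶜ, mem_image_of_mem _ ht', compl_subset_comm.1 h4⟩

/-- a countable strongly dense subset of the chain -/
theorem exists_dense (hL : Ch L) : ∃ S ⊆ L, S.Countable ∧ ∀ e ∈ L, ∀ e' ∈ L, e ⊂ e' →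
    (∃ s ∈ S, e ⊂ s ∧ s ⊆ e') ∧ (∃ s ∈ S, e ⊆ s ∧ s ⊂ e') := by
  have hR : ∀ n : ℕ, ∃ T' ⊆ {e ∈ L | n ∈ e}, T'.Countable ∧ ∀ t ∈ {e ∈ L | n ∈ e},
      ∃ t' ∈ T', t' ⊆ t := fun n =>
    exists_coinitial (hL.chain.mono (sep_subset _ _))
  have hS : ∀ n : ℕ, ∃ T' ⊆ {e ∈ L | n ∉ e}, T'.Countable ∧ ∀ t ∈ {e ∈ L | n ∉ e},
      ∃ t' ∈ T', t ⊆ t' := fun n =>
    exists_cofinal (hL.chain.mono (sep_subset _ _))
  choose R hR1 hR2 hR3 using hR
  choose S hS1 hS2 hS3 using hS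
  refine ⟨(⋃ n, R n) ∪ ⋃ n, S n, ?_, (countable_iUnion hR2).union (countable_iUnion hS2), ?_⟩
  · refine union_subset (iUnion_subset fun n => (hR1 n).trans (sep_subset _ _))
      (iUnion_subset fun n => (hS1 n).trans (sep_subset _ _))
  · intro e he e' he' hee
    obtain ⟨n, hn1, hn2⟩ := exists_of_ssubset hee
    constructor
    · obtain ⟨s, hs1, hs2⟩ := hR3 n e' ⟨he', hn1⟩
      refine ⟨s, Or.inl (mem_iUnion.2 ⟨n, hs1⟩), ?_, hs2⟩
      have := hR1 n hs1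
      exact hL.ssub he this.1 (fun h => hn2 (h this.2))
    · obtain ⟨s, hs1, hs2⟩ := hS3 n e ⟨he, hn2⟩
      refine ⟨s, Or.inr (mem_iUnion.2 ⟨n, hs1⟩), hs2, ?_⟩
      have := hS1 n hs1
      exact hL.ssub this.1 he' (fun h => this.2 (h hn1))

end Pool.Agent.Hia
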