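import Pool.Agent.Helper89.Hia.Chain

/-! Traces, bad endpoints, classes of endpoints. -/

open Set

namespace Pool.Agent.Hia

variable {L : Set (Set ℕ)} {A : BooleanSubalgebra (Set ℕ)}

/-- the trace on `A` of a side of `e` -/
def tr (L : Set (Set ℕ)) (A : BooleanSubalgebra (Set ℕ)) (e : Set ℕ) (δ : Bool) : Set (Set ℕ) :=
  {a | a ∈ A ∧ chi L e δ a}

/-- `e` is a bad endpoint: some `b ∈ A` cuts `e` but not an `e'` which shares a side with `e` -/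
def Bad (L : Set (Set ℕ)) (A : BooleanSubalgebra (Set ℕ)) (e : Set ℕ) : Prop :=
  ∃ b ∈ A, e ∈ ep L b ∧ ∃ e', Inr L e' ∧ e' ∉ ep L b ∧ ∃ δ δ', tr L A e δ = tr L A e' δ'

theorem mem_tr_iff {e a : Set ℕ} {δ : Bool} (ha : a ∈ A) : a ∈ tr L A e δ ↔ chi L e δ a :=
  ⟨fun h => h.2, fun h => ⟨ha, h⟩⟩

theorem tr_eq_iff {e e' : Set ℕ} {δ δ' : Bool} :
    tr L A e δ = tr L A e' δ' ↔ ∀ a ∈ A, (chi L e δ a ↔ chi L e' δ' a) := by
  constructor
  · intro h a ha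
    rw [← mem_tr_iff (L := L) ha, h, mem_tr_iff ha]
  · intro h
    ext a
    exact ⟨fun h1 => ⟨h1.1, (h a h1.1).1 h1.2⟩, fun h1 => ⟨h1.1, (h a h1.1).2 h1.2⟩⟩

theorem not_chi_of_disjoint (hL : Ch L) {e b t t' : Set ℕ} (ht : t ∈ L) (ht' : t' ∈ L)
    (h1 : t ⊂ e) (h2 : e ⊂ t') (hd : Disjoint (t' \ t) b) (δ : Bool) : ¬ chi L e δ b := by
  intro h
  have h3 : chi L e δ (t' \ t) := by
    cases δ
    · exact ⟨t, ht, h1, fun n hn => ⟨h2.1 hn.1, hn.2⟩⟩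
    · exact ⟨t', ht', h2, fun n hn => ⟨hn.1, fun h => hn.2 (h1.1 h)⟩⟩
  obtain ⟨n, hn1, hn2⟩ := chi_not_both hL h3 h
  exact (disjoint_left.1 hd) hn1 hn2

theorem chi_of_subset {e b t t' : Set ℕ} (ht : t ∈ L) (ht' : t' ∈ L)
    (h1 : t ⊂ e) (h2 : e ⊂ t') (hd : t' \ t ⊆ b) (δ : Bool) : chi L e δ b := by
  cases δ
  · exact ⟨t, ht, h1, fun n hn => hd ⟨h2.1 hn.1, hn.2⟩⟩
  · exact ⟨t', ht', h2, fun n hn => hd ⟨hn.1, fun h => hn.2 (h1.1 h)⟩⟩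

/-- the data of a bad endpoint -/
def Dat (L : Set (Set ℕ)) (A : BooleanSubalgebra (Set ℕ)) (s s' t t' : Set ℕ) (δ : Bool)
    (e : Set ℕ) : Prop :=
  e ∈ L ∧ s ⊂ e ∧ e ⊂ s' ∧ ∃ b ∈ A, ∃ e', Inr L e' ∧ t ⊂ e' ∧ e' ⊂ t' ∧
    Disjoint (t' \ t) b ∧ (δ = true → e \ s ⊆ b) ∧ (δ = false → s' \ e ⊆ b) ∧
    ∃ δ', tr L A e δ = tr L A e' δ'

theorem dat_unique (hL : Ch L) {s s' t t' : Set ℕ} (ht : t ∈ L)
    (ht' : t' ∈ L) {δ : Bool} {e₁ e₂ : Set ℕ} (h1 : Dat L A s s' t t' δ e₁)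
    (h2 : Dat L A s s' t t' δ e₂) : ¬ e₁ ⊂ e₂ := by
  intro h
  obtain ⟨he₁, h1a, h1b, b, hb, e', he', h1c, h1d, h1e, h1f, h1g, δ', h1h⟩ := h1
  obtain ⟨he₂, h2a, h2b, b₂, hb₂, e₂', he₂', h2c, h2d, h2e, h2f, h2g, δ₂', h2h⟩ := h2
  cases δ
  · have h3 : chi L e₂ false b := ⟨e₁, he₁, h, fun n hn => h1g rfl ⟨h2b.1 hn.1, hn.2⟩⟩
    rw [tr_eq_iff] at h2h
    exact not_chi_of_disjoint hL ht ht' h2c h2d h1e _ ((h2h b hb).1 h3)
  · have h3 : chi L e₁ true b₂ := ⟨e₂, he₂, h, fun n hn => h2f rfl ⟨hn.1, fun h => hn.2 (h1a.1 h)⟩⟩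
    rw [tr_eq_iff] at h1h
    exact not_chi_of_disjoint hL ht ht' h1c h1d h2e _ ((h1h b₂ hb₂).1 h3)

/-- from `e'` is not an endpoint of `b` and `b` does not contain it to an `S`-interval -/
theorem exists_interval_out {S : Set (Set ℕ)}
    (hS : ∀ e ∈ L, ∀ e' ∈ L, e ⊂ e' → (∃ s ∈ S, e ⊂ s ∧ s ⊆ e') ∧ (∃ s ∈ S, e ⊆ s ∧ s ⊂ e'))
    {e b : Set ℕ} (he : Inr L e) (h1 : chi L e false b) (h2 : chi L e true b) :
    ∃ t ∈ S, ∃ t' ∈ S, t ⊂ e ∧ e ⊂ t' ∧ t' \ t ⊆ b := by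
  obtain ⟨f, hf1, hf2, hf3⟩ := h1
  obtain ⟨f', hf1', hf2', hf3'⟩ := h2
  obtain ⟨t, ht1, ht2, ht3⟩ := (hS f hf1 e he.1 hf2).2
  obtain ⟨t', ht1', ht2', ht3'⟩ := (hS e he.1 f' hf1' hf2').1
  refine ⟨t, ht1, t', ht1', ht3, ht2', ?_⟩
  intro n hn
  by_cases hne : n ∈ e
  · exact hf3 ⟨hne, fun h => hn.2 (ht2 h)⟩
  · exact hf3' ⟨ht3' hn.1, hne⟩

theorem bad_dat (hL : Ch L) (hA : A ≤ BooleanSubalgebra.closure L) {S : Set (Set ℕ)}
    (hS : ∀ e ∈ L, ∀ e' ∈ L, e ⊂ e' → (∃ s ∈ S, e ⊂ s ∧ s ⊆ e') ∧ (∃ s ∈ S, e ⊆ s ∧ s ⊂ e'))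
    {e : Set ℕ} (h : Bad L A e) :
    ∃ s ∈ S, ∃ s' ∈ S, ∃ t ∈ S, ∃ t' ∈ S, ∃ δ, Dat L A s s' t t' δ e := by
  obtain ⟨b, hb, he, e', he', heb', δ, δ', htr⟩ := h
  -- we may assume that `b` does not contain the side `δ` of `e`
  wlog hbδ : ¬ chi L e δ b generalizing b with H
  · push Not at hbδ
    refine H bᶜ (BooleanSubalgebra.compl_mem hb) ?_ ?_ ?_
    · rwa [ep_compl hL (hA hb)]
    · rwa [ep_compl hL (hA hb)]
    · rw [chi_compl hL he.1 (hA hb)]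
      exact not_not.2 hbδ
  have hbL := hA hb
  have hb' : ∀ ε, ¬ chi L e' ε b := by
    have h1 : ¬ chi L e' δ' b := by
      rw [tr_eq_iff] at htr
      rwa [← htr b hb]
    have h2 : chi L e' false b ↔ chi L e' true b := by
      by_contra hn
      exact heb' ⟨he', hn⟩
    intro ε
    cases δ' <;> cases ε <;> tauto
  obtain ⟨t, ht, t', ht', ht1, ht2, ht3⟩ := exists_interval_out hS he'
    ((chi_compl hL he' hbL false).2 (hb' false)) ((chi_compl hL he' hbL true).2 (hb' true))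
  have ht3 : Disjoint (t' \ t) b := subset_compl_iff_disjoint_right.1 ht3
  have hne := he.2
  cases δ
  · have h1 : chi L e true b := by tauto
    have h2 : chi L e false bᶜ := (chi_compl hL he.1 hbL false).2 hbδ
    obtain ⟨f, hf1, hf2, hf3⟩ := h1
    obtain ⟨f', hf1', hf2', hf3'⟩ := h2
    obtain ⟨s', hs1', hs2', hs3'⟩ := (hS e he.1.1 f hf1 hf2).1
    obtain ⟨s, hs1, hs2, hs3⟩ := (hS f' hf1' e he.1.1 hf2').2
    refine ⟨s, hs1, s', hs1', t, ht, t', ht', false, he.1.1, hs3, hs2', b, hb, e', he', ht1, ht2,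
      ht3, fun h => by simp at h, fun _ n hn => hf3 ⟨hs3' hn.1, hn.2⟩, δ', htr⟩
  · have h1 : chi L e false b := by tauto
    have h2 : chi L e true bᶜ := (chi_compl hL he.1 hbL true).2 hbδ
    obtain ⟨f, hf1, hf2, hf3⟩ := h1
    obtain ⟨f', hf1', hf2', hf3'⟩ := h2
    obtain ⟨s, hs1, hs2, hs3⟩ := (hS f hf1 e he.1.1 hf2).2
    obtain ⟨s', hs1', hs2', hs3'⟩ := (hS e he.1.1 f' hf1' hf2').1
    refine ⟨s, hs1, s', hs1', t, ht, t', ht', true, he.1.1, hs3, hs2', b, hb, e', he', ht1, ht2,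
      ht3, fun _ n hn => hf3 ⟨hn.1, fun h => hn.2 (hs2 h)⟩, fun h => by simp at h, δ', htr⟩

theorem countable_bad (hL : Ch L) (hA : A ≤ BooleanSubalgebra.closure L) :
    {e | Bad L A e}.Countable := by
  obtain ⟨S, hSL, hSc, hS⟩ := exists_dense hL
  have h1 : {e | Bad L A e} ⊆ ⋃ p ∈ (S ×ˢ S) ×ˢ (S ×ˢ S), ⋃ δ : Bool,
      {e | Dat L A p.1.1 p.1.2 p.2.1 p.2.2 δ e} := by
    intro e he
    obtain ⟨s, hs, s', hs', t, ht, t', ht', δ, h⟩ := bad_dat hL hA hS he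
    simp only [mem_iUnion]
    exact ⟨((s, s'), (t, t')), ⟨⟨hs, hs'⟩, ⟨ht, ht'⟩⟩, δ, h⟩
  refine Countable.mono h1 ?_
  refine Countable.biUnion ((hSc.prod hSc).prod (hSc.prod hSc)) ?_
  intro p hp
  refine countable_iUnion fun δ => ?_
  refine Set.Subsingleton.countable ?_
  intro e₁ h₁ e₂ h₂
  have ht := hSL hp.2.1
  have ht' := hSL hp.2.2
  rcases hL.tri h₁.1 h₂.1 with h | h | h
  · exact absurd h (dat_unique hL ht ht' h₁ h₂)
  · exact h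
  · exact absurd h (dat_unique hL ht ht' h₂ h₁)

/-- `e` and `e'` are the same pair of points of the Stone space of `A` -/
def Sim (L : Set (Set ℕ)) (A : BooleanSubalgebra (Set ℕ)) (e e' : Set ℕ) : Prop :=
  ∃ σ : Bool, ∀ δ, tr L A e δ = tr L A e' (xor δ σ)

theorem Sim.refl (e : Set ℕ) : Sim L A e e := ⟨false, fun δ => by simp⟩

theorem Sim.symm {e e' : Set ℕ} (h : Sim L A e e') : Sim L A e' e := by
  obtain ⟨σ, h⟩ := h
  refine ⟨σ, fun δ => ?_⟩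
  rw [h]
  simp

theorem Sim.trans {e e' e'' : Set ℕ} (h : Sim L A e e') (h' : Sim L A e' e'') :
    Sim L A e e'' := by
  obtain ⟨σ, h⟩ := h
  obtain ⟨σ', h'⟩ := h'
  refine ⟨xor σ σ', fun δ => ?_⟩
  rw [h, h', Bool.xor_assoc]

theorem Sim.ep {e e' a : Set ℕ} (h : Sim L A e e') (ha : a ∈ A) (he' : Inr L e')
    (he : e ∈ ep L a) : e' ∈ ep L a := by
  obtain ⟨σ, h⟩ := h
  refine ⟨he', ?_⟩
  have h0 := tr_eq_iff.1 (h false) a ha
  have h1 := tr_eq_iff.1 (h true) a ha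
  have h2 := he.2
  cases σ <;> simp at h0 h1 <;> tauto

/-- the value of `q` at the class of `e`, when `q` does not cut it -/
theorem Sim.chi {e e' q : Set ℕ} (h : Sim L A e e') (hq : q ∈ A) (v : Prop)
    (h1 : ∀ δ, chi L e δ q ↔ v) : ∀ δ, Hia.chi L e' δ q ↔ v := by
  intro δ
  obtain ⟨σ, h⟩ := h.symm
  rw [tr_eq_iff.1 (h δ) q hq]
  exact h1 _

theorem tr_not (hL : Ch L) (hA : A ≤ BooleanSubalgebra.closure L) {e e' : Set ℕ}
    (hnb : ¬ Bad L A e) {b₀ : Set ℕ} (hb₀ : b₀ ∈ A) (he : e ∈ ep L b₀) (he' : Inr L e')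
    {δ δ' : Bool} (h : tr L A e δ = tr L A e' δ') : tr L A e (!δ) = tr L A e' (!δ') := by
  have hnb' : ∀ b ∈ A, e ∈ ep L b → e' ∈ ep L b := by
    intro b hb heb
    by_contra hn
    exact hnb ⟨b, hb, heb, e', he', hn, δ, δ', h⟩
  rw [tr_eq_iff] at h
  wlog hb₀δ : ¬ Hia.chi L e δ b₀ generalizing b₀ with H
  · push Not at hb₀δ
    refine H (BooleanSubalgebra.compl_mem hb₀) ?_ ?_
    · rwa [ep_compl hL (hA hb₀)]
    · rw [chi_compl hL he.1 (hA hb₀)]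
      exact not_not.2 hb₀δ
  have key : ∀ b : Set ℕ, (Hia.chi L e δ b ↔ Hia.chi L e (!δ) b) → e ∉ ep L b := by
    intro b hb h1
    apply h1.2
    cases δ <;> simp at hb <;> tauto
  have key' : ∀ b : Set ℕ, ¬ (Hia.chi L e δ b ↔ Hia.chi L e (!δ) b) → e ∈ ep L b := by
    intro b hb
    refine ⟨he.1, ?_⟩
    cases δ <;> simp at hb ⊢ <;> tauto
  have key2 : ∀ b : Set ℕ, (Hia.chi L e' δ' b ↔ Hia.chi L e' (!δ') b) → e' ∉ ep L b := by
    intro b hb h1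
    apply h1.2
    cases δ' <;> simp at hb <;> tauto
  have hb₁ : Hia.chi L e (!δ) b₀ := by
    by_contra hn
    exact key b₀ (by tauto) he
  have hb₂ : Hia.chi L e' (!δ') b₀ := by
    by_contra hn
    exact key2 b₀ (by have := h b₀ hb₀; tauto) (hnb' b₀ hb₀ he)
  rw [tr_eq_iff]
  have main : ∀ b ∈ A, ¬ Hia.chi L e δ b →
      (Hia.chi L e (!δ) b ↔ Hia.chi L e' (!δ') b) := by
    intro b hb hbδ
    have hbδ' : ¬ Hia.chi L e' δ' b := by rwa [← h b hb]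
    constructor
    · intro h1
      have h2 : e' ∈ ep L b := hnb' b hb (key' b (by tauto))
      by_contra hn
      exact key2 b (by tauto) h2
    · intro h1
      by_contra hn
      have h3 : b₀ \ b ∈ A := BooleanSubalgebra.sdiff_mem hb₀ hb
      have h4 : e ∈ ep L (b₀ \ b) := by
        apply key'
        rw [sdiff_eq, chi_inter_iff hL, chi_inter_iff hL, chi_compl hL he.1 (hA hb),
          chi_compl hL he.1 (hA hb)]
        tauto
      refine key2 (b₀ \ b) ?_ (hnb' _ h3 h4)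
      rw [sdiff_eq, chi_inter_iff hL, chi_inter_iff hL, chi_compl hL he' (hA hb),
        chi_compl hL he' (hA hb)]
      have := h b₀ hb₀
      tauto
  intro b hb
  by_cases hbδ : Hia.chi L e δ b
  · have h1 := main bᶜ (BooleanSubalgebra.compl_mem hb) (by
      rw [chi_compl hL he.1 (hA hb)]; exact not_not.2 hbδ)
    rw [chi_compl hL he.1 (hA hb), chi_compl hL he' (hA hb)] at h1
    tauto
  · exact main b hb hbδ

theorem sim_of_tr (hL : Ch L) (hA : A ≤ BooleanSubalgebra.closure L) {e e' : Set ℕ}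
    (hnb : ¬ Bad L A e) {b₀ : Set ℕ} (hb₀ : b₀ ∈ A) (he : e ∈ ep L b₀) (he' : Inr L e')
    {δ δ' : Bool} (h : tr L A e δ = tr L A e' δ') : Sim L A e e' := by
  have h2 := tr_not hL hA hnb hb₀ he he' h
  refine ⟨xor δ δ', fun ε => ?_⟩
  cases δ <;> cases δ' <;> cases ε <;> simp at h h2 ⊢ <;> assumption

/-- separation of different classes -/
theorem exists_sep (hL : Ch L) (hA : A ≤ BooleanSubalgebra.closure L) {e₁ e₂ : Set ℕ}
    (hnb : ¬ Bad L A e₁) {b₀ : Set ℕ} (hb₀ : b₀ ∈ A) (he₁ : e₁ ∈ ep L b₀) (he₂ : Inr L e₂)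
    (hs : ¬ Sim L A e₁ e₂) : ∃ c ∈ A, (∀ δ, chi L e₁ δ c) ∧ ∀ δ, ¬ chi L e₂ δ c := by
  have h1 : ∀ δ δ', ∃ c ∈ A, chi L e₁ δ c ∧ ¬ chi L e₂ δ' c := by
    intro δ δ'
    have h2 : ¬ tr L A e₁ δ = tr L A e₂ δ' := fun h => hs (sim_of_tr hL hA hnb hb₀ he₁ he₂ h)
    rw [tr_eq_iff] at h2
    push Not at h2
    obtain ⟨a, ha, h3⟩ := h2
    rcases h3 with h3 | h3
    · exact ⟨a, ha, h3⟩
    · refine ⟨aᶜ, BooleanSubalgebra.compl_mem ha, ?_, ?_⟩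
      · rw [chi_compl hL he₁.1 (hA ha)]; exact h3.1
      · rw [chi_compl hL he₂ (hA ha)]; exact not_not.2 h3.2
  choose c hc1 hc2 hc3 using h1
  have hm : ∀ δ, c δ false ∩ c δ true ∈ A := fun δ =>
    BooleanSubalgebra.inf_mem (hc1 δ false) (hc1 δ true)
  refine ⟨(c false false ∩ c false true) ∪ (c true false ∩ c true true),
    BooleanSubalgebra.sup_mem (hm false) (hm true), ?_, ?_⟩
  · intro δ
    cases δ
    · exact chi_mono subset_union_left (chi_inter hL (hc2 _ _) (hc2 _ _))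
    · exact chi_mono subset_union_right (chi_inter hL (hc2 _ _) (hc2 _ _))
  · intro δ
    have hmem : (c false false ∩ c false true) ∪ (c true false ∩ c true true) ∈ A :=
      BooleanSubalgebra.sup_mem (hm false) (hm true)
    rw [← chi_compl hL he₂ (hA hmem), compl_union]
    refine chi_inter hL ?_ ?_
    · rw [chi_compl hL he₂ (hA (hm false)), chi_inter_iff hL]
      have h1 := hc3 false δ
      cases δ <;> tauto
    · rw [chi_compl hL he₂ (hA (hm true)), chi_inter_iff hL]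
      have h1 := hc3 true δ
      cases δ <;> tauto

end Pool.Agent.Hia
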