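import Mathlib

/-!
Definitions for MP_5ace61_lc (`s ≤ hia`).  Everything internal happens inside `Set ℕ`.
-/

open Set Cardinal

namespace Pool.Agent.Hia

/-! ### Definitions used in the final statement -/

/-- interval algebra: generated by a chain -/
def IsIntervalAlgebra (B : Type*) [BooleanAlgebra B] : Prop :=
  ∃ C : Set B, IsChain (· ≤ ·) C ∧ BooleanSubalgebra.closure C = ⊤

/-- a subset of a Boolean algebra is centered if every finite subset of it has nonzero meet -/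
def IsCentered {B : Type*} [BooleanAlgebra B] (S : Set B) : Prop :=
  ∀ F : Finset B, (F : Set B) ⊆ S → F.inf id ≠ ⊥

/-- `B ∖ {0}` is a countable union of centered sets -/
def IsSigmaCentered (B : Type*) [BooleanAlgebra B] : Prop :=
  ∃ F : ℕ → Set B, (∀ n, IsCentered (F n)) ∧ {b : B | b ≠ ⊥} = ⋃ n, F n

/-- every subalgebra is an interval algebra -/
def IsHereditary (B : Type*) [BooleanAlgebra B] : Prop :=
  ∀ A : BooleanSubalgebra B, IsIntervalAlgebra A

/-- `S` is a splitting family: a family of infinite sets of natural numbers such that each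
infinite `A ⊆ ℕ` is split by some `X ∈ S` -/
def IsSplitting (S : Set (Set ℕ)) : Prop :=
  (∀ X ∈ S, X.Infinite) ∧
    ∀ A : Set ℕ, A.Infinite → ∃ X ∈ S, (A ∩ X).Infinite ∧ (A \ X).Infinite

/-- the splitting number -/
noncomputable def splittingNumber : Cardinal.{0} :=
  sInf {κ | ∃ S : Set (Set ℕ), IsSplitting S ∧ #S = κ}

/-! ### Internal definitions -/

/-- `u` is `C`-trivial: no element of `C` cuts `u` -/
def Triv (C : Set (Set ℕ)) (u : Set ℕ) : Prop := ∀ c ∈ C, u ⊆ c ∨ Disjoint u c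

/-- `C ⊆ A` is a good chain below `D`: a chain from `∅` to `D` which together with the `C`-trivial
elements generates all elements of `A` below `D` -/
structure GoodChain (A : BooleanSubalgebra (Set ℕ)) (D : Set ℕ) (C : Set (Set ℕ)) : Prop where
  sub : C ⊆ A
  le : ∀ c ∈ C, c ⊆ D
  chain : IsChain (· ⊆ ·) C
  bot : ∅ ∈ C
  top : D ∈ C
  gen : ∀ q ∈ A, q ⊆ D → q ∈ BooleanSubalgebra.closure (C ∪ {u | u ∈ A ∧ u ⊆ D ∧ Triv C u})

/-- hereditary Lindelöf property of `A`: each family of elements has a countable subfamily which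
is cofinal for finite unions -/
def HL (A : BooleanSubalgebra (Set ℕ)) : Prop :=
  ∀ T : Set (Set ℕ), T ⊆ A → ∃ T' ⊆ T, T'.Countable ∧
    ∀ t ∈ T, ∃ F : Set (Set ℕ), F.Finite ∧ F ⊆ T' ∧ t ⊆ ⋃₀ F

/-- monotone nets in `C` converge to one ultrafilter of `A` (increasing part) -/
def LimUp (A : BooleanSubalgebra (Set ℕ)) (C : Set (Set ℕ)) : Prop :=
  ∀ S ⊆ C, S.Nonempty → (∀ a ∈ S, ∃ b ∈ S, a ⊂ b) → ∀ q ∈ A, ∃ a₀ ∈ S,
    (∀ a ∈ S, a₀ ⊆ a → a \ a₀ ⊆ q) ∨ (∀ a ∈ S, a₀ ⊆ a → Disjoint (a \ a₀) q)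

/-- monotone nets in `C` converge to one ultrafilter of `A` (decreasing part) -/
def LimDown (A : BooleanSubalgebra (Set ℕ)) (C : Set (Set ℕ)) : Prop :=
  ∀ S ⊆ C, S.Nonempty → (∀ a ∈ S, ∃ b ∈ S, b ⊂ a) → ∀ q ∈ A, ∃ a₀ ∈ S,
    (∀ a ∈ S, a ⊆ a₀ → a₀ \ a ⊆ q) ∨ (∀ a ∈ S, a ⊆ a₀ → Disjoint (a₀ \ a) q)

end Pool.Agent.Hia
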