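import Pool.Agent.Helper89.Hia.Classes

/-! Families of elements of `A` of the same type. -/

open Set

namespace Pool.Agent.Hia

variable {L : Set (Set ℕ)} {A : BooleanSubalgebra (Set ℕ)}

/-- index of an interval with orientation -/
abbrev Ix := Set ℕ × Set ℕ × Bool

/-- the interval of an index -/
def Ix.iv (t : Ix) : Set ℕ := t.2.1 \ t.1

/-- `a` has a single cut `e` in the interval of `t`, with the prescribed orientation -/
structure Cut (L : Set (Set ℕ)) (t : Ix) (a e : Set ℕ) : Prop where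
  inr : Inr L e
  lo : t.1 ⊂ e
  hi : e ⊂ t.2.1
  left : t.2.2 = true → a ∩ (t.2.1 \ t.1) = e \ t.1
  right : t.2.2 = false → a ∩ (t.2.1 \ t.1) = t.2.1 \ e

/-- union of the intervals -/
def W (T : Finset Ix) : Set ℕ := ⋃ t ∈ T, (t.2.1 \ t.1)

/-- the family of elements of `A` of type `(T, β)` -/
structure Fam (L : Set (Set ℕ)) (A : BooleanSubalgebra (Set ℕ)) (T : Finset Ix) (β a : Set ℕ) :
    Prop where
  mem : a ∈ A
  out : a \ W T = β
  cut : ∀ t ∈ T, ∃ e, Cut L t a e
  sim : ∀ t ∈ T, ∀ t' ∈ T, ∀ e e', Cut L t a e → Cut L t' a e' → Sim L A e e'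

theorem Cut.chi_left {t : Ix} {a e : Set ℕ} (hlo : t.1 ∈ L) (h : Cut L t a e)
    (ho : t.2.2 = true) : chi L e false a := by
  refine ⟨t.1, hlo, h.lo, ?_⟩
  rw [← h.left ho]
  exact inter_subset_left

theorem Cut.chi_right {t : Ix} {a e : Set ℕ} (hhi : t.2.1 ∈ L) (h : Cut L t a e)
    (ho : t.2.2 = false) : chi L e true a := by
  refine ⟨t.2.1, hhi, h.hi, ?_⟩
  rw [← h.right ho]
  exact inter_subset_left

theorem Cut.chi_right' {t : Ix} {a e : Set ℕ} (hhi : t.2.1 ∈ L) (h : Cut L t a e)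
    (ho : t.2.2 = true) : chi L e true aᶜ := by
  refine ⟨t.2.1, hhi, h.hi, ?_⟩
  intro n hn hna
  have h1 := h.left ho
  have h2 : n ∈ a ∩ (t.2.1 \ t.1) := ⟨hna, hn.1, fun h' => hn.2 (h.lo.1 h')⟩
  rw [h1] at h2
  exact hn.2 h2.1

theorem Cut.chi_left' {t : Ix} {a e : Set ℕ} (hlo : t.1 ∈ L) (h : Cut L t a e)
    (ho : t.2.2 = false) : chi L e false aᶜ := by
  refine ⟨t.1, hlo, h.lo, ?_⟩
  intro n hn hna
  have h1 := h.right ho
  have h2 : n ∈ a ∩ (t.2.1 \ t.1) := ⟨hna, h.hi.1 hn.1, hn.2⟩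
  rw [h1] at h2
  exact h2.2 hn.1

/-- all intervals of `T` have their ends in `L` -/
def TL (L : Set (Set ℕ)) (T : Finset Ix) : Prop := ∀ t ∈ T, t.1 ∈ L ∧ t.2.1 ∈ L

theorem Cut.mem_ep (hL : Ch L) (hA : A ≤ BooleanSubalgebra.closure L) {t : Ix} {a e : Set ℕ}
    (hlo : t.1 ∈ L) (hhi : t.2.1 ∈ L) (ha : a ∈ A) (h : Cut L t a e) : e ∈ ep L a := by
  refine ⟨h.inr, fun hiff => ?_⟩
  rcases Bool.eq_false_or_eq_true t.2.2 with ho | ho
  · have h1 := h.chi_left hlo ho
    have h2 := h.chi_right' hhi ho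
    rw [chi_compl hL h.inr (hA ha)] at h2
    exact h2 (hiff.1 h1)
  · have h1 := h.chi_right hhi ho
    have h2 := h.chi_left' hlo ho
    rw [chi_compl hL h.inr (hA ha)] at h2
    exact h2 (hiff.2 h1)

/-- the cut is the only endpoint in the interval -/
theorem Cut.unique (hL : Ch L) {t : Ix} {a e e' : Set ℕ}
    (hlo : t.1 ∈ L) (hhi : t.2.1 ∈ L) (h : Cut L t a e) (he' : e' ∈ ep L a)
    (h1 : t.1 ⊂ e') (h2 : e' ⊂ t.2.1) : e' = e := by
  rcases hL.tri he'.1.1 h.inr.1 with h3 | h3 | h3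
  · exfalso
    rcases Bool.eq_false_or_eq_true t.2.2 with ho | ho
    · have h4 : e \ t.1 ⊆ a := by rw [← h.left ho]; exact inter_subset_left
      have h5 := chi_of_subset hlo h.inr.1 h1 h3 h4
      exact he'.2 ⟨fun _ => h5 _, fun _ => h5 _⟩
    · have h4 : Disjoint (e \ t.1) a := by
        rw [disjoint_left]
        intro n hn hna
        have h5 : n ∈ a ∩ (t.2.1 \ t.1) := ⟨hna, h.hi.1 hn.1, hn.2⟩
        rw [h.right ho] at h5
        exact h5.2 hn.1
      have h5 := not_chi_of_disjoint hL hlo h.inr.1 h1 h3 h4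
      exact he'.2 ⟨fun h => absurd h (h5 _), fun h => absurd h (h5 _)⟩
  · exact h3
  · exfalso
    rcases Bool.eq_false_or_eq_true t.2.2 with ho | ho
    · have h4 : Disjoint (t.2.1 \ e) a := by
        rw [disjoint_left]
        intro n hn hna
        have h5 : n ∈ a ∩ (t.2.1 \ t.1) := ⟨hna, hn.1, fun h' => hn.2 (h.lo.1 h')⟩
        rw [h.left ho] at h5
        exact hn.2 h5.1
      have h5 := not_chi_of_disjoint hL h.inr.1 hhi h3 h2 h4
      exact he'.2 ⟨fun h => absurd h (h5 _), fun h => absurd h (h5 _)⟩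
    · have h4 : t.2.1 \ e ⊆ a := by rw [← h.right ho]; exact inter_subset_left
      have h5 := chi_of_subset h.inr.1 hhi h3 h2 h4
      exact he'.2 ⟨fun _ => h5 _, fun _ => h5 _⟩

theorem Cut.eq {t : Ix} {a e e' : Set ℕ} (h : Cut L t a e) (h' : Cut L t a e') : e = e' := by
  have hd : ∀ {x y z : Set ℕ}, z ⊆ x → z ⊆ y → x \ z = y \ z → x = y := by
    intro x y z hx hy hxy
    rw [← union_sdiff_cancel hx, ← union_sdiff_cancel hy, hxy]
  rcases Bool.eq_false_or_eq_true t.2.2 with ho | ho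
  · exact hd h.lo.1 h'.lo.1 ((h.left ho).symm.trans (h'.left ho))
  · have h1 : t.2.1 \ e = t.2.1 \ e' := (h.right ho).symm.trans (h'.right ho)
    have h2 : t.2.1 \ (t.2.1 \ e) = e := by
      rw [sdiff_sdiff_right_self]; exact inter_eq_self_of_subset_right h.hi.1
    have h3 : t.2.1 \ (t.2.1 \ e') = e' := by
      rw [sdiff_sdiff_right_self]; exact inter_eq_self_of_subset_right h'.hi.1
    rw [← h2, h1, h3]

theorem Fam.eq_of_cut {T : Finset Ix} {β a a' : Set ℕ} (h : Fam L A T β a) (h' : Fam L A T β a')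
    (hc : ∀ t ∈ T, ∃ e, Cut L t a e ∧ Cut L t a' e) : a = a' := by
  have key : ∀ {x y : Set ℕ}, Fam L A T β x → Fam L A T β y →
      (∀ t ∈ T, ∃ e, Cut L t x e ∧ Cut L t y e) → x ⊆ y := by
    intro x y hx hy hxy n hn
    by_cases hW : n ∈ W T
    · simp only [W, mem_iUnion] at hW
      obtain ⟨t, ht, hnt⟩ := hW
      obtain ⟨e, h1, h2⟩ := hxy t ht
      have h3 : n ∈ x ∩ (t.2.1 \ t.1) := ⟨hn, hnt⟩
      have h4 : x ∩ (t.2.1 \ t.1) = y ∩ (t.2.1 \ t.1) := by
        rcases Bool.eq_false_or_eq_true t.2.2 with ho | ho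
        · rw [h1.left ho, h2.left ho]
        · rw [h1.right ho, h2.right ho]
      rw [h4] at h3
      exact h3.1
    · have h3 : n ∈ x \ W T := ⟨hn, hW⟩
      rw [hx.out, ← hy.out] at h3
      exact h3.1
  exact subset_antisymm (key h h' hc) (key h' h fun t ht => by
    obtain ⟨e, h1, h2⟩ := hc t ht
    exact ⟨e, h2, h1⟩)

/-- if the cuts of `a` and `a'` agree at one place, `a = a'` -/
theorem Fam.eq_of_one (hL : Ch L) (hA : A ≤ BooleanSubalgebra.closure L) {T : Finset Ix}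
    (hT : TL L T) {β a a' : Set ℕ} (h : Fam L A T β a) (h' : Fam L A T β a') {t : Ix}
    (ht : t ∈ T) {e : Set ℕ} (he : Cut L t a e) (he' : Cut L t a' e) : a = a' := by
  refine h.eq_of_cut h' fun t' ht' => ?_
  obtain ⟨f, hf⟩ := h.cut t' ht'
  obtain ⟨f', hf'⟩ := h'.cut t' ht'
  have h1 : Sim L A e f' := h'.sim t ht t' ht' e f' he' hf'
  have h2 : e ∈ ep L a := he.mem_ep hL hA (hT t ht).1 (hT t ht).2 h.mem
  have h3 : f' ∈ ep L a := h1.ep h.mem hf'.inr h2
  have h4 : f' = f := hf.unique hL (hT t' ht').1 (hT t' ht').2 h3 hf'.lo hf'.hi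
  subst h4
  exact ⟨f', hf, hf'⟩

theorem Fam.total (hL : Ch L) (hA : A ≤ BooleanSubalgebra.closure L) {T : Finset Ix}
    (hT : TL L T) {β a a' : Set ℕ} (h : Fam L A T β a) (h' : Fam L A T β a') :
    a ⊆ a' ∨ a' ⊆ a := by
  by_cases hne : a = a'
  · left; rw [hne]
  rcases T.eq_empty_or_nonempty with rfl | ⟨t₀, ht₀⟩
  · left
    have h1 := h.out
    have h2 := h'.out
    simp [W] at h1 h2
    rw [h1, h2]
  -- the cuts of `a'` are not endpoints of `a`
  have hcut : ∀ t ∈ T, ∀ e', Cut L t a' e' → (chi L e' false a ↔ chi L e' true a) := by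
    intro t ht e' he'
    by_contra hn
    obtain ⟨e, he⟩ := h.cut t ht
    have h1 : e' ∈ ep L a := ⟨he'.inr, hn⟩
    have h2 : e' = e := he.unique hL (hT t ht).1 (hT t ht).2 h1 he'.lo he'.hi
    subst h2
    exact hne (h.eq_of_one hL hA hT h' ht he he')
  obtain ⟨e₀', he₀'⟩ := h'.cut t₀ ht₀
  have hval : ∀ t ∈ T, ∀ e', Cut L t a' e' → ∀ δ, (chi L e' δ a ↔ chi L e₀' true a) := by
    intro t ht e' he'
    refine (h'.sim t₀ ht₀ t ht e₀' e' he₀' he').chi h.mem _ ?_
    intro δ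
    cases δ
    · exact hcut t₀ ht₀ e₀' he₀'
    · exact Iff.rfl
  by_cases hv : chi L e₀' true a
  · right
    intro n hn
    by_cases hW : n ∈ W T
    · simp only [W, mem_iUnion] at hW
      obtain ⟨t, ht, hnt⟩ := hW
      obtain ⟨e, he⟩ := h.cut t ht
      obtain ⟨e', he'⟩ := h'.cut t ht
      have h3 : n ∈ a' ∩ (t.2.1 \ t.1) := ⟨hn, hnt⟩
      rcases Bool.eq_false_or_eq_true t.2.2 with ho | ho
      · have h4 : e' ⊆ e := by
          by_contra hnn
          have h5 : e ⊂ e' := hL.ssub he.inr.1 he'.inr.1 hnn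
          have h6 : Disjoint (t.2.1 \ e) a := by
            rw [disjoint_left]
            intro m hm hma
            have h7 : m ∈ a ∩ (t.2.1 \ t.1) := ⟨hma, hm.1, fun h' => hm.2 (he.lo.1 h')⟩
            rw [he.left ho] at h7
            exact hm.2 h7.1
          exact not_chi_of_disjoint hL he.inr.1 (hT t ht).2 h5 he'.hi h6 true
            ((hval t ht e' he' true).2 hv)
        rw [he'.left ho] at h3
        have h5 : n ∈ a ∩ (t.2.1 \ t.1) := by
          rw [he.left ho]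
          exact ⟨h4 h3.1, h3.2⟩
        exact h5.1
      · have h4 : e ⊆ e' := by
          by_contra hnn
          have h5 : e' ⊂ e := hL.ssub he'.inr.1 he.inr.1 hnn
          have h6 : Disjoint (e \ t.1) a := by
            rw [disjoint_left]
            intro m hm hma
            have h7 : m ∈ a ∩ (t.2.1 \ t.1) := ⟨hma, he.hi.1 hm.1, hm.2⟩
            rw [he.right ho] at h7
            exact h7.2 hm.1
          exact not_chi_of_disjoint hL (hT t ht).1 he.inr.1 he'.lo h5 h6 true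
            ((hval t ht e' he' true).2 hv)
        rw [he'.right ho] at h3
        have h5 : n ∈ a ∩ (t.2.1 \ t.1) := by
          rw [he.right ho]
          exact ⟨h3.1, fun h => h3.2 (h4 h)⟩
        exact h5.1
    · have h3 : n ∈ a' \ W T := ⟨hn, hW⟩
      rw [h'.out, ← h.out] at h3
      exact h3.1
  · left
    intro n hn
    by_cases hW : n ∈ W T
    · simp only [W, mem_iUnion] at hW
      obtain ⟨t, ht, hnt⟩ := hW
      obtain ⟨e, he⟩ := h.cut t ht
      obtain ⟨e', he'⟩ := h'.cut t ht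
      have h3 : n ∈ a ∩ (t.2.1 \ t.1) := ⟨hn, hnt⟩
      rcases Bool.eq_false_or_eq_true t.2.2 with ho | ho
      · have h4 : e ⊆ e' := by
          by_contra hnn
          have h5 : e' ⊂ e := hL.ssub he'.inr.1 he.inr.1 hnn
          have h6 : e \ t.1 ⊆ a := by rw [← he.left ho]; exact inter_subset_left
          exact hv ((hval t ht e' he' true).1
            (chi_of_subset (hT t ht).1 he.inr.1 he'.lo h5 h6 true))
        rw [he.left ho] at h3
        have h5 : n ∈ a' ∩ (t.2.1 \ t.1) := by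
          rw [he'.left ho]
          exact ⟨h4 h3.1, h3.2⟩
        exact h5.1
      · have h4 : e' ⊆ e := by
          by_contra hnn
          have h5 : e ⊂ e' := hL.ssub he.inr.1 he'.inr.1 hnn
          have h6 : t.2.1 \ e ⊆ a := by rw [← he.right ho]; exact inter_subset_left
          exact hv ((hval t ht e' he' true).1
            (chi_of_subset he.inr.1 (hT t ht).2 h5 he'.hi h6 true))
        rw [he.right ho] at h3
        have h5 : n ∈ a' ∩ (t.2.1 \ t.1) := by
          rw [he'.right ho]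
          exact ⟨h3.1, fun h => h3.2 (h4 h)⟩
        exact h5.1
    · have h3 : n ∈ a \ W T := ⟨hn, hW⟩
      rw [h.out, ← h'.out] at h3
      exact h3.1

/-- the family, as a set -/
def FamS (L : Set (Set ℕ)) (A : BooleanSubalgebra (Set ℕ)) (T : Finset Ix) (β : Set ℕ) :
    Set (Set ℕ) := {a | Fam L A T β a}

theorem famS_chain (hL : Ch L) (hA : A ≤ BooleanSubalgebra.closure L) {T : Finset Ix}
    (hT : TL L T) (β : Set ℕ) : IsChain (· ⊆ ·) (FamS L A T β) :=
  fun _ h _ h' _ => Fam.total hL hA hT h h'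

/-- flip an index -/
def Ix.flip (t : Ix) : Ix := (t.1, t.2.1, !t.2.2)

theorem Ix.flip_flip (t : Ix) : t.flip.flip = t := by simp [Ix.flip]

theorem Cut.flip {t : Ix} {a e : Set ℕ} (h : Cut L t a e) : Cut L t.flip aᶜ e := by
  refine ⟨h.inr, h.lo, h.hi, ?_, ?_⟩
  · intro ho
    have ho' : t.2.2 = false := by simpa [Ix.flip] using ho
    have h1 := h.right ho'
    ext n
    have h2 := congrArg (fun s => n ∈ s) h1
    simp only [mem_inter_iff, mem_sdiff, eq_iff_iff] at h2
    have h3 := @h.hi.1 n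
    have h4 := @h.lo.1 n
    simp only [mem_inter_iff, mem_sdiff, mem_compl_iff, Ix.flip]
    tauto
  · intro ho
    have ho' : t.2.2 = true := by simpa [Ix.flip] using ho
    have h1 := h.left ho'
    ext n
    have h2 := congrArg (fun s => n ∈ s) h1
    simp only [mem_inter_iff, mem_sdiff, eq_iff_iff] at h2
    have h3 := @h.hi.1 n
    have h4 := @h.lo.1 n
    simp only [mem_inter_iff, mem_sdiff, mem_compl_iff, Ix.flip]
    tauto

theorem Cut.of_flip {t : Ix} {a e : Set ℕ} (h : Cut L t.flip aᶜ e) : Cut L t a e := by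
  have h1 := h.flip
  rwa [Ix.flip_flip, compl_compl] at h1

theorem W_flip (T : Finset Ix) [DecidableEq Ix] : W (T.image Ix.flip) = W T := by
  ext n
  simp only [W, mem_iUnion, Finset.mem_image, exists_prop]
  constructor
  · rintro ⟨t, ⟨t', ht', rfl⟩, hn⟩
    exact ⟨t', ht', hn⟩
  · rintro ⟨t, ht, hn⟩
    exact ⟨t.flip, ⟨t, ht, rfl⟩, hn⟩

theorem Fam.flip [DecidableEq Ix] {T : Finset Ix} {β a : Set ℕ} (h : Fam L A T β a) :
    Fam L A (T.image Ix.flip) ((W T)ᶜ \ β) aᶜ := by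
  refine ⟨BooleanSubalgebra.compl_mem h.mem, ?_, ?_, ?_⟩
  · rw [W_flip, ← h.out]
    ext n
    simp only [mem_sdiff, mem_compl_iff]
    tauto
  · intro t ht
    rw [Finset.mem_image] at ht
    obtain ⟨t', ht', rfl⟩ := ht
    obtain ⟨e, he⟩ := h.cut t' ht'
    exact ⟨e, he.flip⟩
  · intro t ht t' ht' e e' he he'
    rw [Finset.mem_image] at ht ht'
    obtain ⟨u, hu, rfl⟩ := ht
    obtain ⟨u', hu', rfl⟩ := ht'
    exact h.sim u hu u' hu' e e' he.of_flip he'.of_flip

theorem TL.flip [DecidableEq Ix] {T : Finset Ix} (hT : TL L T) : TL L (T.image Ix.flip) := by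
  intro t ht
  rw [Finset.mem_image] at ht
  obtain ⟨t', ht', rfl⟩ := ht
  exact hT t' ht'

end Pool.Agent.Hia
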