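import Pool.Agent.Helper89.Hia.Struct
import Pool.Agent.Helper34.Hia.Transfer
import Pool.Agent.Helper37.Hia.Fusion
import Pool.Agent.Helper75.Hia.HLChain
import Pool.Agent.Helper87.Hia.OneStepFinal

/-! `s ≤ hia`: assembly. -/

open Cardinal

namespace Pool.Agent.Hia

theorem core {L : Set (Set ℕ)} (hL : IsChain (· ⊆ ·) L)
    {A : BooleanSubalgebra (Set ℕ)} (hA : A ≤ BooleanSubalgebra.closure L)
    (hcard : #A < splittingNumber) :
    ∃ H : Set (Set ℕ), H ⊆ A ∧ IsChain (· ⊆ ·) H ∧ BooleanSubalgebra.closure H = A := by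
  obtain ⟨C, h1, h2⟩ := structure_thm hL hA
  exact fusion_of_oneStep (fun D hD C hC => one_step (hl_of_chain hL hA) hcard hD hC) C h1 h2

/-- a subalgebra of size `< s` of a `σ`-centered interval algebra is an interval algebra -/
theorem interval_of_small {B : Type*} [BooleanAlgebra B] (h : IsSigmaCentered B)
    (hB : IsIntervalAlgebra B) (A : BooleanSubalgebra B)
    (hcard : Cardinal.lift.{0} #A < Cardinal.lift splittingNumber) : IsIntervalAlgebra A :=
  interval_of_small_of_core (fun hL _ hA hc => core hL hA hc) h hB A hcard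

end Pool.Agent.Hia
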