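import Pool.Agent.Helper89.Hia.Fam

/-! Monotone nets in a family of one type converge. -/

open Set

namespace Pool.Agent.Hia

variable {L : Set (Set ℕ)} {A : BooleanSubalgebra (Set ℕ)}

theorem Cut.mono_left {t : Ix} {a a' e e' : Set ℕ} (h : Cut L t a e) (h' : Cut L t a' e')
    (haa : a ⊆ a') (ho : t.2.2 = true) : e ⊆ e' := by
  intro n hn
  by_cases h1 : n ∈ t.1
  · exact h'.lo.1 h1
  · have h2 : n ∈ a ∩ (t.2.1 \ t.1) := by rw [h.left ho]; exact ⟨hn, h1⟩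
    have h3 : n ∈ a' ∩ (t.2.1 \ t.1) := ⟨haa h2.1, h2.2⟩
    rw [h'.left ho] at h3
    exact h3.1

theorem Cut.mono_right {t : Ix} {a a' e e' : Set ℕ} (h : Cut L t a e) (h' : Cut L t a' e')
    (haa : a ⊆ a') (ho : t.2.2 = false) : e' ⊆ e := by
  intro n hn
  by_contra h1
  have h2 : n ∈ a ∩ (t.2.1 \ t.1) := by rw [h.right ho]; exact ⟨h'.hi.1 hn, h1⟩
  have h3 : n ∈ a' ∩ (t.2.1 \ t.1) := ⟨haa h2.1, h2.2⟩
  rw [h'.right ho] at h3
  exact h3.2 hn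

/-- common refinement of finitely many eventual properties along a chain -/
theorem eventually_finite {ι : Type*} {S : Set (Set ℕ)} (hS : IsChain (· ⊆ ·) S)
    (hne : S.Nonempty) (P : ι → Set ℕ → Prop) (I : Finset ι)
    (h : ∀ i ∈ I, ∃ a₀ ∈ S, ∀ a₁ ∈ S, a₀ ⊆ a₁ → P i a₁) :
    ∃ a₀ ∈ S, ∀ i ∈ I, ∀ a₁ ∈ S, a₀ ⊆ a₁ → P i a₁ := by
  classical
  induction I using Finset.induction_on with
  | empty =>
    obtain ⟨a, ha⟩ := hne
    exact ⟨a, ha, fun i hi => absurd hi (Finset.notMem_empty i)⟩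
  | insert i I hi ih =>
    obtain ⟨a, ha, ha'⟩ := ih fun j hj => h j (Finset.mem_insert_of_mem hj)
    obtain ⟨b, hb, hb'⟩ := h i (Finset.mem_insert_self i I)
    obtain ⟨m, hm, hm1, hm2⟩ : ∃ m ∈ S, a ⊆ m ∧ b ⊆ m := by
      rcases hS.total ha hb with h1 | h1
      · exact ⟨b, hb, h1, subset_rfl⟩
      · exact ⟨a, ha, subset_rfl, h1⟩
    refine ⟨m, hm, fun j hj a₁ ha₁ hma => ?_⟩
    rcases Finset.mem_insert.1 hj with rfl | hj
    · exact hb' a₁ ha₁ (hm2.trans hma)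
    · exact ha' j hj a₁ ha₁ (hm1.trans hma)

/-- the lower and upper end of the region between two cuts -/
def lo (o : Bool) (x y : Set ℕ) : Set ℕ := if o then x else y
def hi (o : Bool) (x y : Set ℕ) : Set ℕ := if o then y else x

theorem limUp_famS (hL : Ch L) (hA : A ≤ BooleanSubalgebra.closure L) {T : Finset Ix}
    (hT : TL L T) (β : Set ℕ) : LimUp A (FamS L A T β) := by
  classical
  intro S hS hne hmax q hq
  have hSch : IsChain (· ⊆ ·) S := (famS_chain hL hA hT β).mono hS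
  have hF : ∀ a ∈ S, Fam L A T β a := fun a ha => hS ha
  have hcut : ∀ a ∈ S, ∀ t ∈ T, ∃ e, Cut L t a e := fun a ha t ht => (hS ha).cut t ht
  choose! c hc using hcut
  have hcL : ∀ a ∈ S, ∀ t ∈ T, c a t ∈ L := fun a ha t ht => (hc a ha t ht).inr.1
  -- monotonicity of the cuts
  have hmono : ∀ a ∈ S, ∀ a' ∈ S, a ⊆ a' → ∀ t ∈ T,
      lo t.2.2 (c a t) (c a' t) ⊆ hi t.2.2 (c a t) (c a' t) := by
    intro a ha a' ha' haa t ht
    unfold lo hi
    rcases Bool.eq_false_or_eq_true t.2.2 with ho | ho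
    · rw [ho]; simpa using (hc a ha t ht).mono_left (hc a' ha' t ht) haa ho
    · rw [ho]; simpa using (hc a ha t ht).mono_right (hc a' ha' t ht) haa ho
  have hne' : ∀ a ∈ S, ∀ a' ∈ S, a ⊂ a' → ∀ t ∈ T, c a t ≠ c a' t := by
    intro a ha a' ha' haa t ht h
    have h1 := hc a' ha' t ht
    rw [← h] at h1
    have := (hF a ha).eq_of_one hL hA hT (hF a' ha') ht (hc a ha t ht) h1
    exact haa.ne this
  -- eventually no endpoint of `q` in the region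
  have hev : ∃ a₀ ∈ S, ∀ i ∈ T ×ˢ (ep_finite hL (hA hq)).toFinset, ∀ a₁ ∈ S, a₀ ⊆ a₁ →
      ∀ a ∈ S, a₁ ⊆ a → ¬ (lo i.1.2.2 (c a₁ i.1) (c a i.1) ⊂ i.2 ∧
        i.2 ⊂ hi i.1.2.2 (c a₁ i.1) (c a i.1)) := by
    refine eventually_finite (P := fun (i : Ix × Set ℕ) a₁ => ∀ a ∈ S, a₁ ⊆ a →
      ¬ (lo i.1.2.2 (c a₁ i.1) (c a i.1) ⊂ i.2 ∧ i.2 ⊂ hi i.1.2.2 (c a₁ i.1) (c a i.1)))
      hSch hne _ ?_
    rintro ⟨t, f⟩ hi'
    rw [Finset.mem_product] at hi'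
    obtain ⟨ht, -⟩ := hi'
    simp only at ht ⊢
    rcases Bool.eq_false_or_eq_true t.2.2 with ho | ho
    · by_cases hex : ∃ a ∈ S, f ⊆ c a t
      · obtain ⟨a, ha, hf⟩ := hex
        refine ⟨a, ha, fun a₁ ha₁ haa a₂ _ _ h => ?_⟩
        have h1 := hmono a ha a₁ ha₁ haa t ht
        simp only [lo, hi, ho, if_true] at h h1
        exact h.1.2 (hf.trans h1)
      · push Not at hex
        obtain ⟨a, ha⟩ := hne
        refine ⟨a, ha, fun a₁ ha₁ haa a₂ ha₂ _ h => ?_⟩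
        simp only [lo, hi, ho, if_true] at h
        exact hex a₂ ha₂ h.2.1
    · by_cases hex : ∃ a ∈ S, c a t ⊆ f
      · obtain ⟨a, ha, hf⟩ := hex
        refine ⟨a, ha, fun a₁ ha₁ haa a₂ _ _ h => ?_⟩
        have h1 := hmono a ha a₁ ha₁ haa t ht
        simp only [lo, hi, ho, Bool.false_eq_true, if_false] at h h1
        exact h.2.2 (h1.trans hf)
      · push Not at hex
        obtain ⟨a, ha⟩ := hne
        refine ⟨a, ha, fun a₁ ha₁ haa a₂ ha₂ _ h => ?_⟩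
        simp only [lo, hi, ho, Bool.false_eq_true, if_false] at h
        exact hex a₂ ha₂ h.1.1
  obtain ⟨a₀, ha₀, hev⟩ := hev
  have hreg : ∀ a ∈ S, a₀ ⊆ a → ∀ t ∈ T,
      hi t.2.2 (c a₀ t) (c a t) \ lo t.2.2 (c a₀ t) (c a t) ⊆ q ∨
      Disjoint (hi t.2.2 (c a₀ t) (c a t) \ lo t.2.2 (c a₀ t) (c a t)) q := by
    intro a ha haa t ht
    have hlo : lo t.2.2 (c a₀ t) (c a t) ∈ L := by
      unfold lo; split_ifs
      · exact hcL a₀ ha₀ t ht
      · exact hcL a ha t ht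
    have hhi : hi t.2.2 (c a₀ t) (c a t) ∈ L := by
      unfold hi; split_ifs
      · exact hcL a ha t ht
      · exact hcL a₀ ha₀ t ht
    refine dec_ep hL (hA hq) _ hlo _ hhi (hmono a₀ ha₀ a ha haa t ht) ?_
    intro f hf
    exact hev (t, f) (Finset.mem_product.2 ⟨ht, by simpa using hf⟩) a₀ ha₀ subset_rfl a ha haa
  obtain ⟨a₁, ha₁, h01⟩ := hmax a₀ ha₀
  obtain ⟨a₂, ha₂, h12⟩ := hmax a₁ ha₁
  -- the cut of `a₁` is strictly inside the region of every larger element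
  have hin : ∀ a ∈ S, a₂ ⊆ a → ∀ t ∈ T, lo t.2.2 (c a₀ t) (c a t) ⊂ c a₁ t ∧
      c a₁ t ⊂ hi t.2.2 (c a₀ t) (c a t) := by
    intro a ha haa t ht
    have h1 := hmono a₀ ha₀ a₁ ha₁ h01.1 t ht
    have h2 := hmono a₁ ha₁ a ha (h12.1.trans haa) t ht
    have h3 := hne' a₀ ha₀ a₁ ha₁ h01 t ht
    have h4 := hne' a₁ ha₁ a ha (h12.trans_subset haa) t ht
    rcases Bool.eq_false_or_eq_true t.2.2 with ho | ho
    · simp only [lo, hi, ho, if_true] at h1 h2 ⊢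
      exact ⟨h1.ssubset_of_ne h3, h2.ssubset_of_ne h4⟩
    · simp only [lo, hi, ho, Bool.false_eq_true, if_false] at h1 h2 ⊢
      exact ⟨h2.ssubset_of_ne h4.symm, h1.ssubset_of_ne h3.symm⟩
  have hloL : ∀ a ∈ S, ∀ t ∈ T, lo t.2.2 (c a₀ t) (c a t) ∈ L := by
    intro a ha t ht
    unfold lo; split_ifs
    · exact hcL a₀ ha₀ t ht
    · exact hcL a ha t ht
  have hhiL : ∀ a ∈ S, ∀ t ∈ T, hi t.2.2 (c a₀ t) (c a t) ∈ L := by
    intro a ha t ht
    unfold hi; split_ifs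
    · exact hcL a ha t ht
    · exact hcL a₀ ha₀ t ht
  -- `T` is nonempty
  rcases T.eq_empty_or_nonempty with rfl | ⟨t₀, ht₀⟩
  · exfalso
    have h1 := (hF a₁ ha₁).out
    have h2 := (hF a₂ ha₂).out
    simp [W] at h1 h2
    rw [h1, h2] at h12
    exact h12.ne rfl
  have hv0 : ∀ δ, chi L (c a₁ t₀) δ q ↔ chi L (c a₁ t₀) true q := by
    obtain ⟨h1, h2⟩ := hin a₂ ha₂ subset_rfl t₀ ht₀
    rcases hreg a₂ ha₂ (h01.1.trans h12.1) t₀ ht₀ with h3 | h3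
    · have h4 := chi_of_subset (hloL a₂ ha₂ t₀ ht₀) (hhiL a₂ ha₂ t₀ ht₀) h1 h2 h3
      exact fun δ => iff_of_true (h4 _) (h4 _)
    · have h4 := not_chi_of_disjoint hL (hloL a₂ ha₂ t₀ ht₀) (hhiL a₂ ha₂ t₀ ht₀) h1 h2 h3
      exact fun δ => iff_of_false (h4 _) (h4 _)
  have hv : ∀ t ∈ T, ∀ δ, chi L (c a₁ t) δ q ↔ chi L (c a₁ t₀) true q := by
    intro t ht
    exact ((hF a₁ ha₁).sim t₀ ht₀ t ht _ _ (hc a₁ ha₁ t₀ ht₀) (hc a₁ ha₁ t ht)).chi hq _ hv0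
  -- regions cover the difference
  have hcover : ∀ a ∈ S, a₀ ⊆ a → ∀ n ∈ a \ a₀, ∃ t ∈ T, ∃ a' ∈ S, a₂ ⊆ a' ∧ a₀ ⊆ a' ∧
      n ∈ hi t.2.2 (c a₀ t) (c a' t) \ lo t.2.2 (c a₀ t) (c a' t) := by
    intro a ha haa n hn
    have hW : n ∈ W T := by
      by_contra hW
      have h1 : n ∈ a \ W T := ⟨hn.1, hW⟩
      rw [(hF a ha).out, ← (hF a₀ ha₀).out] at h1
      exact hn.2 h1.1
    simp only [W, mem_iUnion] at hW
    obtain ⟨t, ht, hnt⟩ := hW
    obtain ⟨a', ha', haa', ha2a'⟩ : ∃ a' ∈ S, a ⊆ a' ∧ a₂ ⊆ a' := by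
      rcases hSch.total ha ha₂ with h1 | h1
      · exact ⟨a₂, ha₂, h1, subset_rfl⟩
      · exact ⟨a, ha, subset_rfl, h1⟩
    refine ⟨t, ht, a', ha', ha2a', haa.trans haa', ?_⟩
    have h1 : n ∈ a' ∩ (t.2.1 \ t.1) := ⟨haa' hn.1, hnt⟩
    have h2 : n ∉ a₀ ∩ (t.2.1 \ t.1) := fun h => hn.2 h.1
    rcases Bool.eq_false_or_eq_true t.2.2 with ho | ho
    · rw [(hc a' ha' t ht).left ho] at h1
      rw [(hc a₀ ha₀ t ht).left ho] at h2
      simp only [lo, hi, ho, if_true]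
      exact ⟨h1.1, fun h => h2 ⟨h, h1.2⟩⟩
    · rw [(hc a' ha' t ht).right ho] at h1
      rw [(hc a₀ ha₀ t ht).right ho] at h2
      simp only [lo, hi, ho, Bool.false_eq_true, if_false]
      refine ⟨?_, h1.2⟩
      by_contra h
      exact h2 ⟨h1.1, h⟩
  refine ⟨a₀, ha₀, ?_⟩
  by_cases hvt : chi L (c a₁ t₀) true q
  · left
    intro a ha haa n hn
    obtain ⟨t, ht, a', ha', h2a', h0a', hn'⟩ := hcover a ha haa n hn
    obtain ⟨h1, h2⟩ := hin a' ha' h2a' t ht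
    rcases hreg a' ha' h0a' t ht with h3 | h3
    · exact h3 hn'
    · exact absurd ((hv t ht true).2 hvt)
        (not_chi_of_disjoint hL (hloL a' ha' t ht) (hhiL a' ha' t ht) h1 h2 h3 true)
  · right
    intro a ha haa
    rw [disjoint_left]
    intro n hn
    obtain ⟨t, ht, a', ha', h2a', h0a', hn'⟩ := hcover a ha haa n hn
    obtain ⟨h1, h2⟩ := hin a' ha' h2a' t ht
    rcases hreg a' ha' h0a' t ht with h3 | h3
    · exact absurd ((hv t ht true).1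
        (chi_of_subset (hloL a' ha' t ht) (hhiL a' ha' t ht) h1 h2 h3 true)) hvt
    · exact (disjoint_left.1 h3) hn'

theorem limDown_famS (hL : Ch L) (hA : A ≤ BooleanSubalgebra.closure L) {T : Finset Ix}
    (hT : TL L T) (β : Set ℕ) : LimDown A (FamS L A T β) := by
  classical
  intro S hS hne hmin q hq
  have h := limUp_famS hL hA hT.flip ((W T)ᶜ \ β) (compl '' S) ?_ (hne.image _) ?_ q hq
  · obtain ⟨_, ⟨a₀, ha₀, rfl⟩, h⟩ := h
    refine ⟨a₀, ha₀, ?_⟩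
    have hd : ∀ a : Set ℕ, aᶜ \ a₀ᶜ = a₀ \ a := by
      intro a; ext n; simp only [mem_sdiff, mem_compl_iff]; tauto
    rcases h with h | h
    · left
      intro a ha haa
      rw [← hd]
      exact h _ (mem_image_of_mem _ ha) (compl_subset_compl.2 haa)
    · right
      intro a ha haa
      rw [← hd]
      exact h _ (mem_image_of_mem _ ha) (compl_subset_compl.2 haa)
  · rintro _ ⟨a, ha, rfl⟩
    exact (hS ha).flip
  · rintro _ ⟨a, ha, rfl⟩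
    obtain ⟨b, hb, hba⟩ := hmin a ha
    exact ⟨bᶜ, mem_image_of_mem _ hb, compl_lt_compl_iff_lt.2 hba⟩

end Pool.Agent.Hia
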