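import Pool.Agent.Helper89.Hia.Final

/-! Each member of the class whose minimum is `hia` has at least `s` elements (any universe). -/

open Cardinal

namespace Pool.Agent.Hia

universe u

theorem splittingNumber_le_card (B : Type u) [BooleanAlgebra B] (hσ : IsSigmaCentered B)
    (hI : IsIntervalAlgebra B) (hH : ¬ IsHereditary B) :
    Cardinal.lift.{u} splittingNumber ≤ #B := by
  unfold IsHereditary at hH
  push Not at hH
  obtain ⟨A, hA⟩ := hH
  by_contra hlt
  push Not at hlt
  refine hA (interval_of_small hσ hI A ?_)
  have h1 : #A ≤ #B := Cardinal.mk_le_of_injective (f := fun a : A => (a : B))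
    (fun a b h => Subtype.ext h)
  rw [Cardinal.lift_uzero]
  exact lt_of_le_of_lt h1 hlt

end Pool.Agent.Hia
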