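import Pool.Agent.Helper89.Hia.Defs

/-! The cardinal characteristic `hia`. -/

open Cardinal

namespace Pool.Agent.Hia

/-- the least cardinality of a `σ`-centered interval algebra which is not hereditary -/
noncomputable def hia : Cardinal.{0} :=
  sInf {κ | ∃ (B : Type) (_ : BooleanAlgebra B),
    IsSigmaCentered B ∧ IsIntervalAlgebra B ∧ ¬ IsHereditary B ∧ #B = κ}

end Pool.Agent.Hia
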