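import Pool.Agent.Helper89.Hia.Lim
import Pool.Agent.Helper51.Hia.GoodOfLim

/-! The structure theorem: `A` is generated by countably many good chains. -/

open Set

namespace Pool.Agent.Hia

variable {L : Set (Set ℕ)} {A : BooleanSubalgebra (Set ℕ)}

theorem exists_least {X : Set (Set ℕ)} (hX : IsChain (· ⊆ ·) X) (hf : X.Finite)
    (hne : X.Nonempty) : ∃ m ∈ X, ∀ x ∈ X, m ⊆ x := by
  obtain ⟨m, hm⟩ := hf.exists_minimal hne
  refine ⟨m, hm.prop, fun x hx => ?_⟩
  rcases hX.total hm.prop hx with h | h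
  · exact h
  · exact hm.le_of_le hx h

theorem exists_greatest {X : Set (Set ℕ)} (hX : IsChain (· ⊆ ·) X) (hf : X.Finite)
    (hne : X.Nonempty) : ∃ m ∈ X, ∀ x ∈ X, x ⊆ m := by
  obtain ⟨m, hm⟩ := hf.exists_maximal hne
  refine ⟨m, hm.prop, fun x hx => ?_⟩
  rcases hX.total hm.prop hx with h | h
  · exact hm.le_of_ge hx h
  · exact h

/-- `b` is a union of intervals with ends in its endpoints -/
theorem eq_iUnion_ep (hL : Ch L) {b : Set ℕ} (hb : b ∈ BooleanSubalgebra.closure L) :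
    ∃ Q : Set (Set ℕ × Set ℕ), Q.Finite ∧
      Q ⊆ (ep L b ∪ {∅, univ}) ×ˢ (ep L b ∪ {∅, univ}) ∧ b = ⋃ p ∈ Q, (p.2 \ p.1) := by
  set E : Set (Set ℕ) := ep L b ∪ {∅, univ} with hE
  have hEf : E.Finite := (ep_finite hL hb).union (by simp)
  have hEL : E ⊆ L := by
    rintro x (hx | hx)
    · exact hx.1.1
    · rcases hx with rfl | rfl
      · exact hL.bot
      · exact hL.top
  refine ⟨{p ∈ E ×ˢ E | p.2 \ p.1 ⊆ b}, (hEf.prod hEf).subset (sep_subset _ _),
    sep_subset _ _, ?_⟩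
  refine subset_antisymm ?_ (iUnion₂_subset fun p hp => hp.2)
  intro n hn
  obtain ⟨f', hf'1, hf'2⟩ := exists_least (X := {f ∈ E | n ∈ f})
    ((hL.chain.mono hEL).mono (sep_subset _ _)) (hEf.subset (sep_subset _ _))
    ⟨univ, Or.inr (by simp), mem_univ n⟩
  obtain ⟨f, hf1, hf2⟩ := exists_greatest (X := {f ∈ E | n ∉ f})
    ((hL.chain.mono hEL).mono (sep_subset _ _)) (hEf.subset (sep_subset _ _))
    ⟨∅, Or.inr (by simp), notMem_empty n⟩
  have hff : f ⊂ f' := hL.ssub (hEL hf1.1) (hEL hf'1.1) (fun h => hf1.2 (h hf'1.2))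
  have hdec := dec_ep hL hb f (hEL hf1.1) f' (hEL hf'1.1) hff.1 (by
    rintro g hg ⟨h1, h2⟩
    by_cases hng : n ∈ g
    · exact h2.2 (hf'2 g ⟨Or.inl hg, hng⟩)
    · exact h1.2 (hf2 g ⟨Or.inl hg, hng⟩))
  have hnd : n ∈ f' \ f := ⟨hf'1.2, hf1.2⟩
  rcases hdec with h | h
  · exact mem_iUnion₂.2 ⟨(f, f'), ⟨⟨hf1.1, hf'1.1⟩, h⟩, hnd⟩
  · exact absurd hn ((disjoint_left.1 h) hnd)

theorem countable_of_ep (hL : Ch L) {K : Set (Set ℕ)} (hK : K.Countable) :
    {b | b ∈ BooleanSubalgebra.closure L ∧ ep L b ⊆ K}.Countable := by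
  have hK' : (K ∪ {∅, univ}).Countable := hK.union (by simp)
  have h1 := countable_ofPred_finite_subset (hK'.prod hK')
  refine (h1.image (fun Q : Set (Set ℕ × Set ℕ) => ⋃ p ∈ Q, (p.2 \ p.1))).mono ?_
  rintro b ⟨hb, hbK⟩
  obtain ⟨Q, hQ1, hQ2, hQ3⟩ := eq_iUnion_ep hL hb
  refine ⟨Q, ⟨hQ1, hQ2.trans ?_⟩, hQ3.symm⟩
  exact prod_mono (union_subset_union_left _ hbK) (union_subset_union_left _ hbK)

/-- the interval of an endpoint -/
theorem exists_cut (hL : Ch L) {S : Set (Set ℕ)} (hSL : S ⊆ L)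
    (hS : ∀ e ∈ L, ∀ e' ∈ L, e ⊂ e' → (∃ s ∈ S, e ⊂ s ∧ s ⊆ e') ∧ (∃ s ∈ S, e ⊆ s ∧ s ⊂ e'))
    {a : Set ℕ} (ha : a ∈ BooleanSubalgebra.closure L) {e : Set ℕ} (he : e ∈ ep L a) :
    ∃ t : Ix, t.1 ∈ S ∧ t.2.1 ∈ S ∧ Cut L t a e := by
  have hfin := ep_finite hL ha
  have hEL : ep L a ⊆ L := fun x hx => hx.1.1
  have hc1 : IsChain (· ⊆ ·) {f ∈ insert ∅ (ep L a) | f ⊂ e} :=
    hL.chain.mono ((sep_subset _ _).trans (insert_subset hL.bot hEL))
  have hc2 : IsChain (· ⊆ ·) {f ∈ insert univ (ep L a) | e ⊂ f} :=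
    hL.chain.mono ((sep_subset _ _).trans (insert_subset hL.top hEL))
  obtain ⟨f, hf1, hf2⟩ := exists_greatest hc1 ((hfin.insert _).subset (sep_subset _ _))
    ⟨∅, Or.inl rfl, bot_lt_iff_ne_bot.2 he.1.2.1⟩
  obtain ⟨f', hf'1, hf'2⟩ := exists_least hc2 ((hfin.insert _).subset (sep_subset _ _))
    ⟨univ, Or.inl rfl, lt_top_iff_ne_top.2 he.1.2.2⟩
  have hfL : f ∈ L := (insert_subset hL.bot hEL) hf1.1
  have hfL' : f' ∈ L := (insert_subset hL.top hEL) hf'1.1
  obtain ⟨s, hs1, hs2, hs3⟩ := (hS f hfL e he.1.1 hf1.2).2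
  obtain ⟨s', hs1', hs2', hs3'⟩ := (hS e he.1.1 f' hfL' hf'1.2).1
  have hd1 := dec_ep hL ha s (hSL hs1) e he.1.1 hs3.1 (by
    rintro g hg ⟨h1, h2⟩
    exact h1.2 ((hf2 g ⟨Or.inr hg, h2⟩).trans hs2))
  have hd2 := dec_ep hL ha e he.1.1 s' (hSL hs1') hs2'.1 (by
    rintro g hg ⟨h1, h2⟩
    exact h2.2 (hs3'.trans (hf'2 g ⟨Or.inr hg, h1⟩)))
  rcases hd1 with hd1 | hd1 <;> rcases hd2 with hd2 | hd2
  · exfalso
    exact he.2 (iff_of_true ⟨s, hSL hs1, hs3, hd1⟩ ⟨s', hSL hs1', hs2', hd2⟩)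
  · refine ⟨(s, s', true), hs1, hs1', he.1, hs3, hs2', fun _ => ?_, fun h => by simp at h⟩
    ext n
    simp only [mem_inter_iff, mem_sdiff]
    constructor
    · rintro ⟨h1, h2, h3⟩
      refine ⟨?_, h3⟩
      by_contra hne
      exact (disjoint_left.1 hd2) ⟨h2, hne⟩ h1
    · rintro ⟨h1, h2⟩
      exact ⟨hd1 ⟨h1, h2⟩, hs2'.1 h1, h2⟩
  · refine ⟨(s, s', false), hs1, hs1', he.1, hs3, hs2', fun h => by simp at h, fun _ => ?_⟩
    ext n
    simp only [mem_inter_iff, mem_sdiff]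
    constructor
    · rintro ⟨h1, h2, h3⟩
      refine ⟨h2, fun hne => ?_⟩
      exact (disjoint_left.1 hd1) ⟨hne, h3⟩ h1
    · rintro ⟨h1, h2⟩
      exact ⟨hd2 ⟨h1, h2⟩, h1, fun h => h2 (hs3.1 h)⟩
  · exfalso
    have h1 : chi L e false aᶜ := ⟨s, hSL hs1, hs3, subset_compl_iff_disjoint_right.2 hd1⟩
    have h2 : chi L e true aᶜ := ⟨s', hSL hs1', hs2', subset_compl_iff_disjoint_right.2 hd2⟩
    rw [chi_compl hL he.1 ha] at h1 h2
    exact he.2 (iff_of_false h1 h2)

theorem W_mem (T : Finset Ix) (hT : TL L T) :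
    W T ∈ BooleanSubalgebra.closure L := by
  unfold W
  exact BooleanSubalgebra.biSup_mem T.finite_toSet fun t ht =>
    BooleanSubalgebra.sdiff_mem (BooleanSubalgebra.mem_closure_of_mem (hT t ht).2)
      (BooleanSubalgebra.mem_closure_of_mem (hT t ht).1)

theorem ep_W (hL : Ch L) {S : Set (Set ℕ)} (hSL : S ⊆ L) (T : Finset Ix)
    (hT : ∀ t ∈ T, t.1 ∈ S ∧ t.2.1 ∈ S) : ep L (W T) ⊆ S := by
  classical
  induction T using Finset.induction_on with
  | empty =>
    rintro e ⟨he, h⟩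
    exfalso
    apply h
    have h0 : W (∅ : Finset Ix) = ∅ := by simp [W]
    rw [h0]
    have h1 : ∀ δ, ¬ chi L e δ ∅ := by
      intro δ h
      obtain ⟨n, hn, -⟩ := chi_not_both hL h h
      exact hn
    exact iff_of_false (h1 _) (h1 _)
  | insert t T ht ih =>
    have h0 : W (insert t T) = (t.2.1 \ t.1) ∪ W T := by simp [W]
    have hT1 := hT t (Finset.mem_insert_self t T)
    have hT2 : ∀ u ∈ T, u.1 ∈ S ∧ u.2.1 ∈ S := fun u hu => hT u (Finset.mem_insert_of_mem hu)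
    have hTL : TL L T := fun u hu => ⟨hSL (hT2 u hu).1, hSL (hT2 u hu).2⟩
    have hm1 : t.1 ∈ BooleanSubalgebra.closure L :=
      BooleanSubalgebra.mem_closure_of_mem (hSL hT1.1)
    have hm2 : t.2.1 ∈ BooleanSubalgebra.closure L :=
      BooleanSubalgebra.mem_closure_of_mem (hSL hT1.2)
    rw [h0]
    refine (ep_union hL (BooleanSubalgebra.sdiff_mem hm2 hm1) (W_mem T hTL)).trans ?_
    refine union_subset ?_ (ih hT2)
    refine (ep_sdiff hL hm1).trans ?_
    refine union_subset ((ep_chain hL (hSL hT1.2)).trans ?_)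
      ((ep_chain hL (hSL hT1.1)).trans ?_)
    · exact singleton_subset_iff.2 hT1.2
    · exact singleton_subset_iff.2 hT1.1

theorem structure_Ch (hL : Ch L) (hA : A ≤ BooleanSubalgebra.closure L) :
    ∃ C : ℕ → Set (Set ℕ), (∀ n, GoodChain A univ (C n)) ∧
      A ≤ BooleanSubalgebra.closure (⋃ n, C n) := by
  classical
  obtain ⟨S, hSL, hSc, hS⟩ := exists_dense hL
  -- separating elements
  set P : (Set ℕ × Set ℕ) × (Set ℕ × Set ℕ) → Set ℕ → Prop := fun p c =>
    c ∈ A ∧ p.1.2 \ p.1.1 ⊆ c ∧ Disjoint (p.2.2 \ p.2.1) c with hP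
  set g : (Set ℕ × Set ℕ) × (Set ℕ × Set ℕ) → Set ℕ := fun p =>
    if h : ∃ c, P p c then h.choose else ∅ with hg
  have hgP : ∀ p, (∃ c, P p c) → P p (g p) := by
    intro p h
    simp only [hg]
    rw [dif_pos h]
    exact h.choose_spec
  have hgA : ∀ p, g p ∈ A := by
    intro p
    by_cases h : ∃ c, P p c
    · exact (hgP p h).1
    · simp only [hg]
      rw [dif_neg h]
      exact BooleanSubalgebra.bot_mem
  set A₁ : Set (Set ℕ) := g '' ((S ×ˢ S) ×ˢ (S ×ˢ S)) with hA₁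
  have hA₁c : A₁.Countable := ((hSc.prod hSc).prod (hSc.prod hSc)).image g
  have hA₁A : ∀ c ∈ A₁, c ∈ A := by
    rintro _ ⟨p, -, rfl⟩
    exact hgA p
  set L₀ : Set (Set ℕ) := {e | Bad L A e} ∪ ⋃ c ∈ A₁, ep L c with hL₀
  have hL₀c : L₀.Countable := (countable_bad hL hA).union
    (hA₁c.biUnion fun c hc => (ep_finite hL (hA (hA₁A c hc))).countable)
  have hepL₀ : ∀ c ∈ A₁, ep L c ⊆ L₀ := fun c hc e he =>
    Or.inr (mem_iUnion₂.2 ⟨c, hc, he⟩)
  have hsep : ∀ a ∈ A, ∀ e₁ ∈ ep L a \ L₀, ∀ e₂ ∈ ep L a \ L₀, ¬ Sim L A e₁ e₂ →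
      ∃ c ∈ A₁, (∀ δ, chi L e₁ δ c) ∧ ∀ δ, ¬ chi L e₂ δ c := by
    intro a ha e₁ he₁ e₂ he₂ hns
    have hnb : ¬ Bad L A e₁ := fun h => he₁.2 (Or.inl h)
    obtain ⟨c, hc, hc1, hc2⟩ := exists_sep hL hA hnb ha he₁.1 he₂.1.1 hns
    obtain ⟨s, hs, s', hs', hs1, hs2, hs3⟩ := exists_interval_out hS he₁.1.1 (hc1 _) (hc1 _)
    obtain ⟨t, ht, t', ht', ht1, ht2, ht3⟩ := exists_interval_out (b := cᶜ) hS he₂.1.1
      ((chi_compl hL he₂.1.1 (hA hc) _).2 (hc2 _)) ((chi_compl hL he₂.1.1 (hA hc) _).2 (hc2 _))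
    have hPc : ∃ c, P ((s, s'), (t, t')) c :=
      ⟨c, hc, hs3, subset_compl_iff_disjoint_right.1 ht3⟩
    have h1 := hgP _ hPc
    refine ⟨g ((s, s'), (t, t')), mem_image_of_mem _ ⟨⟨hs, hs'⟩, ⟨ht, ht'⟩⟩, ?_, ?_⟩
    · exact chi_of_subset (hSL hs) (hSL hs') hs1 hs2 h1.2.1
    · exact not_chi_of_disjoint hL (hSL ht) (hSL ht') ht1 ht2 h1.2.2
  -- the countable set of types
  set Dd : Set (Set ℕ) := {b | b ∈ BooleanSubalgebra.closure L ∧ ep L b ⊆ L₀ ∪ S} with hDd
  have hDc : Dd.Countable := countable_of_ep hL (hL₀c.union hSc)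
  set Ty : Set (Finset Ix × Set ℕ) := {x | (∀ t ∈ x.1, t.1 ∈ S ∧ t.2.1 ∈ S) ∧ x.2 ∈ Dd} with hTy
  have hTyc : Ty.Countable := by
    have h1 : {T : Set Ix | T.Finite ∧ T ⊆ S ×ˢ (S ×ˢ (univ : Set Bool))}.Countable :=
      countable_ofPred_finite_subset (hSc.prod (hSc.prod countable_univ))
    have h2 : {T : Finset Ix | ∀ t ∈ T, t.1 ∈ S ∧ t.2.1 ∈ S}.Countable := by
      refine (h1.preimage_of_injOn (f := fun T : Finset Ix => (T : Set Ix))
        (Finset.coe_injective.injOn)).mono ?_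
      intro T hT
      refine ⟨T.finite_toSet, fun t ht => ⟨(hT t ht).1, (hT t ht).2, mem_univ _⟩⟩
    refine (h2.prod hDc).mono ?_
    rintro ⟨T, b⟩ ⟨h3, h4⟩
    exact ⟨h3, h4⟩
  have hTL : ∀ x ∈ Ty, TL L x.1 := fun x hx t ht => ⟨hSL (hx.1 t ht).1, hSL (hx.1 t ht).2⟩
  have hTyne : Ty.Nonempty := by
    refine ⟨(∅, ∅), fun t ht => absurd ht (Finset.notMem_empty t),
      BooleanSubalgebra.bot_mem, ?_⟩
    intro e he
    have := ep_chain hL hL.bot he
    rw [mem_singleton_iff] at this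
    exact absurd this he.1.2.1
  -- generation
  have hmain : ∀ n : ℕ, ∀ a ∈ A, (ep L a \ L₀).ncard ≤ n →
      a ∈ BooleanSubalgebra.closure (⋃ x ∈ Ty, FamS L A x.1 x.2) := by
    intro n
    induction n with
    | zero =>
      intro a ha hn
      have hfin : (ep L a \ L₀).Finite := (ep_finite hL (hA ha)).subset sdiff_subset
      have h0 : ep L a \ L₀ = ∅ := by
        rw [← Set.ncard_eq_zero hfin]; omega
      refine BooleanSubalgebra.mem_closure_of_mem ?_
      refine mem_iUnion₂.2 ⟨(∅, a), ⟨fun t ht => absurd ht (Finset.notMem_empty t), hA ha, ?_⟩, ?_⟩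
      · intro e he
        by_contra hn'
        have : e ∈ ep L a \ L₀ := ⟨he, fun h => hn' (Or.inl h)⟩
        rw [h0] at this
        exact this
      · exact ⟨ha, by simp [W], fun t ht => absurd ht (Finset.notMem_empty t),
          fun t ht => absurd ht (Finset.notMem_empty t)⟩
    | succ n ih =>
      intro a ha hn
      have hfin : (ep L a \ L₀).Finite := (ep_finite hL (hA ha)).subset sdiff_subset
      by_cases hall : ∀ e₁ ∈ ep L a \ L₀, ∀ e₂ ∈ ep L a \ L₀, Sim L A e₁ e₂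
      · -- `a` is simple
        have hcut : ∀ e ∈ ep L a \ L₀, ∃ t : Ix, t.1 ∈ S ∧ t.2.1 ∈ S ∧ Cut L t a e :=
          fun e he => exists_cut hL hSL hS (hA ha) he.1
        choose! t ht1 ht2 ht3 using hcut
        set T : Finset Ix := hfin.toFinset.image t with hTdef
        have hTS : ∀ u ∈ T, u.1 ∈ S ∧ u.2.1 ∈ S := by
          intro u hu
          rw [hTdef, Finset.mem_image] at hu
          obtain ⟨e, he, rfl⟩ := hu
          rw [Finite.mem_toFinset] at he
          exact ⟨ht1 e he, ht2 e he⟩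
        have hTL' : TL L T := fun u hu => ⟨hSL (hTS u hu).1, hSL (hTS u hu).2⟩
        refine BooleanSubalgebra.mem_closure_of_mem ?_
        refine mem_iUnion₂.2 ⟨(T, a \ W T), ⟨hTS, ?_, ?_⟩, ?_⟩
        · exact BooleanSubalgebra.sdiff_mem (hA ha) (W_mem T hTL')
        · intro e he
          by_cases heS : e ∈ S
          · exact Or.inr heS
          rcases ep_sdiff hL (W_mem T hTL') he with h1 | h1
          · by_cases h2 : e ∈ L₀
            · exact Or.inl h2
            exfalso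
            have h3 : e ∈ ep L a \ L₀ := ⟨h1, h2⟩
            have h4 := ht3 e h3
            have h5 : (t e).2.1 \ (t e).1 ⊆ W T := by
              intro m hm
              simp only [W, mem_iUnion]
              exact ⟨t e, Finset.mem_image_of_mem _ (by simpa using h3), hm⟩
            have h6 : ∀ δ, ¬ chi L e δ (a \ W T) := by
              intro δ h
              have h7 := chi_of_subset (hSL (ht1 e h3)) (hSL (ht2 e h3)) h4.lo h4.hi h5 δ
              obtain ⟨m, hm1, hm2⟩ := chi_not_both hL h h7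
              exact hm1.2 hm2
            exact he.2 (iff_of_false (h6 _) (h6 _))
          · exact absurd (ep_W hL hSL T hTS h1) heS
        · refine ⟨ha, rfl, ?_, ?_⟩
          · intro u hu
            rw [hTdef, Finset.mem_image] at hu
            obtain ⟨e, he, rfl⟩ := hu
            rw [Finite.mem_toFinset] at he
            exact ⟨e, ht3 e he⟩
          · intro u hu u' hu' f f' hf hf'
            rw [hTdef, Finset.mem_image] at hu hu'
            obtain ⟨e, he, rfl⟩ := hu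
            obtain ⟨e', he', rfl⟩ := hu'
            rw [Finite.mem_toFinset] at he he'
            rw [hf.eq (ht3 e he), hf'.eq (ht3 e' he')]
            exact hall e he e' he'
      · push Not at hall
        obtain ⟨e₁, he₁, e₂, he₂, hns⟩ := hall
        obtain ⟨c, hc, hc1, hc2⟩ := hsep a ha e₁ he₁ e₂ he₂ hns
        have hcA := hA₁A c hc
        have key : ∀ (b : Set ℕ) (e : Set ℕ), e ∈ ep L a \ L₀ → ep L b \ L₀ ⊆ ep L a \ L₀ →
            e ∉ ep L b → (ep L b \ L₀).ncard ≤ n := by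
          intro b e he hsub heb
          have h1 : ep L b \ L₀ ⊆ (ep L a \ L₀) \ {e} := by
            intro x hx
            refine ⟨hsub hx, ?_⟩
            rintro rfl
            exact heb hx.1
          have h2 := Set.ncard_le_ncard h1 (hfin.subset sdiff_subset)
          have h3 := Set.ncard_sdiff_singleton_of_mem he
          omega
        have hm1 : a ∩ c ∈ A := BooleanSubalgebra.inf_mem ha hcA
        have hm2 : a \ c ∈ A := BooleanSubalgebra.sdiff_mem ha hcA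
        have h1 := ih (a ∩ c) hm1 (key (a ∩ c) e₂ he₂ (by
            rintro x ⟨hx1, hx2⟩
            rcases ep_inter hL a c hx1 with h | h
            · exact ⟨h, hx2⟩
            · exact absurd (hepL₀ c hc h) hx2) (by
            intro h
            have h3 : ∀ δ, ¬ chi L e₂ δ (a ∩ c) := fun δ h' => hc2 δ (chi_mono inter_subset_right h')
            exact h.2 (iff_of_false (h3 _) (h3 _))))
        have h2 := ih (a \ c) hm2 (key (a \ c) e₁ he₁ (by
            rintro x ⟨hx1, hx2⟩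
            rcases ep_sdiff hL (hA hcA) hx1 with h | h
            · exact ⟨h, hx2⟩
            · exact absurd (hepL₀ c hc h) hx2) (by
            intro h
            have h3 : ∀ δ, ¬ chi L e₁ δ (a \ c) := by
              intro δ h'
              obtain ⟨m, hm1, hm2⟩ := chi_not_both hL h' (hc1 δ)
              exact hm1.2 hm2
            exact h.2 (iff_of_false (h3 _) (h3 _))))
        have h3 : a = (a ∩ c) ∪ (a \ c) := (inter_union_sdiff a c).symm
        rw [h3]
        exact BooleanSubalgebra.sup_mem h1 h2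
  -- enumeration
  obtain ⟨f, hf⟩ := hTyc.exists_eq_range hTyne
  have hfTy : ∀ n, f n ∈ Ty := fun n => hf ▸ mem_range_self n
  have hgood : ∀ n, ∃ C, FamS L A (f n).1 (f n).2 ⊆ C ∧ GoodChain A univ C := by
    intro n
    have hT := hTL (f n) (hfTy n)
    exact good_of_lim (fun a ha => ha.mem) (famS_chain hL hA hT _) (limUp_famS hL hA hT _)
      (limDown_famS hL hA hT _)
  choose C hC1 hC2 using hgood
  refine ⟨C, hC2, ?_⟩
  intro a ha
  have h1 := hmain _ a ha le_rfl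
  refine BooleanSubalgebra.closure_mono ?_ h1
  refine iUnion₂_subset fun x hx => ?_
  rw [hf] at hx
  obtain ⟨n, rfl⟩ := hx
  exact (hC1 n).trans (subset_iUnion C n)

/-- BLOCK G (structure theorem) -/
theorem structure_thm {L : Set (Set ℕ)} (hL : IsChain (· ⊆ ·) L)
    {A : BooleanSubalgebra (Set ℕ)} (hA : A ≤ BooleanSubalgebra.closure L) :
    ∃ C : ℕ → Set (Set ℕ), (∀ n, GoodChain A univ (C n)) ∧
      A ≤ BooleanSubalgebra.closure (⋃ n, C n) := by
  have hL' : Ch (insert ∅ (insert univ L)) := by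
    refine ⟨?_, Or.inl rfl, Or.inr (Or.inl rfl)⟩
    refine IsChain.insert (IsChain.insert hL ?_) ?_
    · intro b _ _
      exact Or.inr (subset_univ b)
    · intro b _ _
      exact Or.inl (empty_subset b)
  exact structure_Ch hL' (hA.trans (BooleanSubalgebra.closure_mono
    ((subset_insert _ _).trans (subset_insert _ _))))

end Pool.Agent.Hia
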